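import Pool.Agent.Helper720.PowTorus

set_option autoImplicit false

open MvPolynomial

namespace Pool.Agent.W5h40.Wlp

open Pool.Agent.Helper720.Pow
open Pool.Agent.Helper720.Level (allMon mem_allMon coeff_sum_monomial)

variable {K : Type*} [Field K] {n : ℕ}

/-- the monomials of degree `i` outside `J ^ k` -/
noncomputable def Bs (n d k i : ℕ) : Finset (Fin n →₀ ℕ) :=
  (allMon n i).filter fun m => fl d m < k

lemma mem_Bs {d k i : ℕ} {m : Fin n →₀ ℕ} : m ∈ Bs n d k i ↔ m.degree = i ∧ fl d m < k := by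
  unfold Bs
  rw [Finset.mem_filter, mem_allMon]

/-- the polynomial with given coefficients -/
noncomputable def toPoly (K : Type*) [Field K] (n d k i : ℕ) :
    (↥(Bs n d k i) → K) →ₗ[K] MvPolynomial (Fin n) K where
  toFun g := ∑ m : ↥(Bs n d k i), monomial (m : Fin n →₀ ℕ) (g m)
  map_add' g g' := by
    rw [← Finset.sum_add_distrib]
    exact Finset.sum_congr rfl fun m _ => by rw [Pi.add_apply, map_add]
  map_smul' c g := by
    rw [RingHom.id_apply, Finset.smul_sum]
    exact Finset.sum_congr rfl fun m _ => by rw [Pi.smul_apply, map_smul]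

lemma toPoly_apply {d k i : ℕ} (g : ↥(Bs n d k i) → K) :
    toPoly K n d k i g = ∑ m : ↥(Bs n d k i), monomial (m : Fin n →₀ ℕ) (g m) := rfl

lemma coeff_toPoly {d k i : ℕ} (g : ↥(Bs n d k i) → K) (m : ↥(Bs n d k i)) :
    coeff (m : Fin n →₀ ℕ) (toPoly K n d k i g) = g m := by
  classical
  rw [toPoly_apply, coeff_sum, Finset.sum_eq_single m]
  · rw [coeff_monomial, if_pos rfl]
  · intro b _ hb
    rw [coeff_monomial, if_neg (fun h => hb (Subtype.ext h))]
  · intro h
    exact absurd (Finset.mem_univ _) h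

lemma toPoly_hom {d k i : ℕ} (g : ↥(Bs n d k i) → K) : (toPoly K n d k i g).IsHomogeneous i := by
  rw [toPoly_apply]
  exact IsHomogeneous.sum _ _ _ fun m _ => isHomogeneous_monomial _ (mem_Bs.1 m.2).1

/-- the multiplication map in the monomial bases -/
noncomputable def Tmap (K : Type*) [Field K] (n d k i : ℕ) :
    (↥(Bs n d k i) → K) →ₗ[K] (↥(Bs n d k (i + 1)) → K) where
  toFun g := fun w => coeff (w : Fin n →₀ ℕ) (el K n * toPoly K n d k i g)
  map_add' g g' := by
    funext w
    rw [map_add, mul_add, coeff_add, Pi.add_apply]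
  map_smul' c g := by
    funext w
    rw [map_smul, mul_smul_comm, coeff_smul, RingHom.id_apply, Pi.smul_apply]

lemma Tmap_apply {d k i : ℕ} (g : ↥(Bs n d k i) → K) (w : ↥(Bs n d k (i + 1))) :
    Tmap K n d k i g w = coeff (w : Fin n →₀ ℕ) (el K n * toPoly K n d k i g) := rfl

lemma el_mul_hom {i : ℕ} {f : MvPolynomial (Fin n) K} (hf : f.IsHomogeneous i) :
    (el K n * f).IsHomogeneous (i + 1) := by
  have := (el_hom (K := K) (n := n)).mul hf
  rwa [add_comm] at this

lemma Tmap_inj {d k i : ℕ} (hd : 1 ≤ d) (h : InjAt K n d k i 1) :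
    Function.Injective (Tmap K n d k i) := by
  rw [← LinearMap.ker_eq_bot, LinearMap.ker_eq_bot']
  intro g hg
  have h1 : el K n ^ 1 * toPoly K n d k i g ∈ powIdeal K n d k := by
    rw [pow_one]
    apply mem_of_coeff hd (el_mul_hom (toPoly_hom g))
    intro w hw hfl
    have := congrFun hg ⟨w, mem_Bs.2 ⟨hw, hfl⟩⟩
    rwa [Tmap_apply] at this
  have h2 := h _ (toPoly_hom g) h1
  rw [mem_powIdeal hd] at h2
  funext m
  have h3 := h2 _ (mem_Bs.1 m.2).2
  rwa [coeff_toPoly] at h3

lemma Tmap_surj {d k i : ℕ} (hd : 1 ≤ d) (h : Function.Surjective (Tmap K n d k i)) :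
    SurjAt K n d k i 1 := by
  intro g hg
  obtain ⟨x, hx⟩ := h fun w => coeff (w : Fin n →₀ ℕ) g
  refine ⟨toPoly K n d k i x, toPoly_hom x, ?_⟩
  rw [pow_one]
  apply mem_of_coeff hd (hg.sub (el_mul_hom (toPoly_hom x)))
  intro w hw hfl
  have := congrFun hx ⟨w, mem_Bs.2 ⟨hw, hfl⟩⟩
  rw [Tmap_apply] at this
  rw [coeff_sub, this, sub_self]

lemma surj_of_inj {d k i : ℕ} (hd : 1 ≤ d) (h : InjAt K n d k i 1)
    (hc : (Bs n d k (i + 1)).card ≤ (Bs n d k i).card) : SurjAt K n d k i 1 := by
  have h1 := Tmap_inj hd h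
  have h2 := LinearMap.finrank_le_finrank_of_injective h1
  rw [Module.finrank_fintype_fun_eq_card, Module.finrank_fintype_fun_eq_card, Fintype.card_coe,
    Fintype.card_coe] at h2
  apply Tmap_surj hd
  refine (LinearMap.injective_iff_surjective_of_finrank_eq_finrank ?_).1 h1
  rw [Module.finrank_fintype_fun_eq_card, Module.finrank_fintype_fun_eq_card, Fintype.card_coe,
    Fintype.card_coe]
  omega

/-- A translation invariant polynomial in the inverse system obstructs surjectivity. -/
lemma not_surj_of_dual [CharZero K] {d k i : ℕ} (hd : 1 ≤ d) (F : MvPolynomial (Fin n) K)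
    (hF : F ≠ 0) (hhom : F.IsHomogeneous (i + 1)) (hD : ∑ c, pderiv c F = 0)
    (hfl : ∀ m ∈ F.support, fl d m < k) : ¬ SurjAt K n d k i 1 := by
  classical
  intro hsurj
  obtain ⟨m₀, hm₀⟩ := MvPolynomial.ne_zero_iff.1 hF
  have hm₀s : m₀ ∈ F.support := mem_support_iff.2 hm₀
  obtain ⟨f, hf, hfg⟩ := hsurj (monomial m₀ 1)
    (isHomogeneous_monomial _ (degree_of_coeff hhom hm₀))
  rw [pow_one, mem_powIdeal hd] at hfg
  set Φ : MvPolynomial (Fin n) K → K := fun p =>
    ∑ m ∈ F.support, ((fact m : K) * coeff m F) * coeff m p with hΦ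
  have hΦmon : ∀ (w : Fin n →₀ ℕ) (r : K), Φ (monomial w r) = (fact w : K) * coeff w F * r := by
    intro w r
    simp only [hΦ, coeff_monomial]
    by_cases hw : w ∈ F.support
    · rw [Finset.sum_eq_single w]
      · rw [if_pos rfl]
      · intro b _ hb
        rw [if_neg (Ne.symm hb), mul_zero]
      · intro h
        exact absurd hw h
    · rw [notMem_support_iff.1 hw, mul_zero, zero_mul]
      refine Finset.sum_eq_zero fun b hb => ?_
      rw [if_neg, mul_zero]
      rintro rfl
      exact hw hb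
  have hΦadd : ∀ p q, Φ (p + q) = Φ p + Φ q := by
    intro p q
    simp only [hΦ, coeff_add, mul_add, Finset.sum_add_distrib]
  have hΦsum : ∀ {ι : Type} (s : Finset ι) (p : ι → MvPolynomial (Fin n) K),
      Φ (∑ j ∈ s, p j) = ∑ j ∈ s, Φ (p j) := by
    intro ι s p
    simp only [hΦ, coeff_sum, Finset.mul_sum]
    exact Finset.sum_comm
  have hfact : ∀ (m : Fin n →₀ ℕ) (c : Fin n),
      fact (m + Finsupp.single c 1) = fact m * (m c + 1) := by
    intro m c
    have h1 := fact_sub (m + Finsupp.single c 1) (c := c) (by simp)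
    rw [add_tsub_cancel_right] at h1
    rw [h1]
    simp [mul_comm]
  have h1 : Φ (el K n * f) = 0 := by
    rw [f.as_sum, Finset.mul_sum, hΦsum]
    refine Finset.sum_eq_zero fun m _ => ?_
    unfold el
    rw [Finset.sum_mul, hΦsum]
    have h2 : ∀ c : Fin n, Φ (X c * monomial m (coeff m f)) =
        (coeff m f * (fact m : K)) * coeff m (pderiv c F) := by
      intro c
      rw [X, monomial_mul, one_mul, hΦmon, add_comm (Finsupp.single c 1) m, hfact, coeff_pderiv]
      push_cast
      ring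
    rw [Finset.sum_congr rfl fun c _ => h2 c, ← Finset.mul_sum, ← coeff_sum, hD, coeff_zero,
      mul_zero]
  have h2 : Φ (monomial m₀ 1 - el K n * f) = 0 := by
    simp only [hΦ]
    refine Finset.sum_eq_zero fun m hm => ?_
    rw [hfg m (hfl m hm), mul_zero]
  have h3 : Φ (monomial m₀ 1) = Φ (monomial m₀ 1 - el K n * f) + Φ (el K n * f) := by
    rw [← hΦadd, sub_add_cancel]
  rw [h1, h2, add_zero, hΦmon, mul_one] at h3
  exact mul_ne_zero (Nat.cast_ne_zero.2 (fact_ne_zero m₀)) hm₀ h3

end Pool.Agent.W5h40.Wlp
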