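import Pool.Agent.W5h40.Wlp.Types

set_option autoImplicit false

open MvPolynomial

namespace Pool.Agent.W5h40.Wlp

open Pool.Agent.Helper720.Pow

/-- the multiset of the values `≥ d` -/
def big (d : ℕ) {a : ℕ} (g : Fin a → ℕ) : Multiset ℕ :=
  (Finset.univ.val.map g).filter (d ≤ ·)

/-- the effect of the lowering of a value on the multiset of the values `≥ d` -/
def step (d : ℕ) (M : Multiset ℕ) (x : ℕ) : Multiset ℕ :=
  if x < d then M else if x = d then M.erase x else (x - 1) ::ₘ M.erase x

lemma map_univ_cons {a : ℕ} (x : ℕ) (g : Fin a → ℕ) :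
    (Finset.univ.val.map (Fin.cons x g : Fin (a + 1) → ℕ)) = x ::ₘ Finset.univ.val.map g := by
  rw [Fin.univ_succ, Finset.cons_val, Multiset.map_cons, Fin.cons_zero, Finset.map_val,
    Multiset.map_map]
  congr 1

lemma big_cons (d : ℕ) {a : ℕ} (x : ℕ) (g : Fin a → ℕ) :
    big d (Fin.cons x g : Fin (a + 1) → ℕ) = if d ≤ x then x ::ₘ big d g else big d g := by
  unfold big
  rw [map_univ_cons]
  split_ifs with h
  · rw [Multiset.filter_cons_of_pos _ h]
  · rw [Multiset.filter_cons_of_neg _ h]

lemma big_update {d : ℕ} (hd : 1 ≤ d) {a : ℕ} (g : Fin a → ℕ) (j : Fin a) (_hx : g j ≠ 0) :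
    big d (Function.update g j (g j - 1)) = step d (big d g) (g j) := by
  classical
  have h1 : (Finset.univ : Finset (Fin a)).val = j ::ₘ (Finset.univ.erase j).val := by
    rw [Finset.erase_val]
    exact (Multiset.cons_erase (Finset.mem_univ j)).symm
  have h2 : ∀ y, Finset.univ.val.map (Function.update g j y) =
      y ::ₘ (Finset.univ.erase j).val.map g := by
    intro y
    rw [h1, Multiset.map_cons, Function.update_self]
    congr 1
    refine Multiset.map_congr rfl fun i hi => ?_
    have hij : i ≠ j := Finset.ne_of_mem_erase (show i ∈ Finset.univ.erase j from hi)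
    rw [Function.update_of_ne hij]
  have h3 : Finset.univ.val.map g = g j ::ₘ (Finset.univ.erase j).val.map g := by
    rw [h1, Multiset.map_cons]
  unfold big step
  rw [h2, h3]
  rcases lt_trichotomy (g j) d with h | h | h
  · rw [if_pos h, Multiset.filter_cons_of_neg _ (by omega), Multiset.filter_cons_of_neg _ (by omega)]
  · rw [if_neg (by omega), if_pos h, Multiset.filter_cons_of_neg _ (by omega),
      Multiset.filter_cons_of_pos _ (by omega), Multiset.erase_cons_head]
  · rw [if_neg (by omega), if_neg (by omega), Multiset.filter_cons_of_pos _ (by omega),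
      Multiset.filter_cons_of_pos _ (by omega), Multiset.erase_cons_head]

lemma sum_step {K : Type*} [Field K] (d : ℕ) {a : ℕ} (g : Fin a → ℕ) (Ψ : Multiset ℕ → K) :
    ∑ j, (g j : K) * Ψ (step d (big d g) (g j)) =
      (((∑ j, g j : ℕ) : K) - ((big d g).sum : ℕ)) * Ψ (big d g) +
        ((big d g).map fun x : ℕ => (x : K) * Ψ (step d (big d g) x)).sum := by
  have h1 : ∑ j, (g j : K) * Ψ (step d (big d g) (g j)) =
      ((Finset.univ.val.map g).map fun x : ℕ => (x : K) * Ψ (step d (big d g) x)).sum := by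
    rw [Multiset.map_map]
    rfl
  have h2 : (∑ j, g j) = (Finset.univ.val.map g).sum := rfl
  obtain ⟨S, hS⟩ : ∃ S, S = Finset.univ.val.map g := ⟨_, rfl⟩
  have h3 : big d g = S.filter (d ≤ ·) := by rw [hS]; rfl
  rw [h1, h2, ← hS]
  obtain ⟨B, hB⟩ : ∃ B, B = big d g := ⟨_, rfl⟩
  rw [← hB] at h3 ⊢
  have h4 : S = B + S.filter (fun x => ¬ d ≤ x) := by
    rw [h3]
    exact (Multiset.filter_add_not _ _).symm
  have h5 : ((S.filter (fun x => ¬ d ≤ x)).map fun x : ℕ => (x : K) * Ψ (step d B x)).sum =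
      ((S.filter (fun x => ¬ d ≤ x)).sum : ℕ) * Ψ B := by
    have h6 : ((S.filter (fun x => ¬ d ≤ x)).map fun x : ℕ => (x : K) * Ψ (step d B x)) =
        ((S.filter (fun x => ¬ d ≤ x)).map fun x : ℕ => (x : K) * Ψ B) := by
      refine Multiset.map_congr rfl fun x hx => ?_
      have := (Multiset.mem_filter.1 hx).2
      unfold step
      rw [if_pos (by omega)]
    rw [h6, Multiset.sum_map_mul_right]
    congr 1
    induction (S.filter (fun x => ¬ d ≤ x)) using Multiset.induction_on with
    | empty => simp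
    | cons x T ih => rw [Multiset.map_cons, Multiset.sum_cons, Multiset.sum_cons, ih, Nat.cast_add]
  obtain ⟨T, hT⟩ : ∃ T, T = S.filter (fun x => ¬ d ≤ x) := ⟨_, rfl⟩
  rw [← hT] at h4 h5
  rw [h4, Multiset.map_add, Multiset.sum_add, h5, Multiset.sum_add]
  push_cast
  ring

variable {a b : ℕ}

/-- the left half of the exponents -/
def lft (m : Fin (a + b) →₀ ℕ) : Fin a → ℕ := fun j => m (Fin.castAdd b j)

/-- the right half of the exponents -/
def rgt (m : Fin (a + b) →₀ ℕ) : Fin b → ℕ := fun j => m (Fin.natAdd a j)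

/-- the type of a monomial: in both blocks the multiset of the exponents `≥ d` and the degree -/
def bt (a b d : ℕ) (m : Fin (a + b) →₀ ℕ) : Multiset ℕ × ℕ × Multiset ℕ × ℕ :=
  (big d (lft m), ∑ j, lft m j, big d (rgt m), ∑ j, rgt m j)

lemma cast_ne_nat (j : Fin a) (i : Fin b) : Fin.castAdd b j ≠ Fin.natAdd a i := by
  intro h
  have := congrArg Fin.val h
  simp at this
  omega

lemma lft_sub (m : Fin (a + b) →₀ ℕ) (j : Fin a) :
    lft (m - Finsupp.single (Fin.castAdd b j) 1) = Function.update (lft m) j (lft m j - 1) := by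
  funext i
  unfold lft
  rw [sub_single_apply]
  by_cases h : i = j
  · subst h
    rw [if_pos rfl, Function.update_self]
  · rw [if_neg (fun h' => h (Fin.castAdd_injective a b h')), Function.update_of_ne h]

lemma rgt_sub (m : Fin (a + b) →₀ ℕ) (j : Fin a) :
    rgt (m - Finsupp.single (Fin.castAdd b j) 1) = rgt m := by
  funext i
  unfold rgt
  rw [sub_single_apply, if_neg (Ne.symm (cast_ne_nat j i))]

lemma rgt_sub' (m : Fin (a + b) →₀ ℕ) (j : Fin b) :
    rgt (m - Finsupp.single (Fin.natAdd a j) 1) = Function.update (rgt m) j (rgt m j - 1) := by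
  funext i
  unfold rgt
  rw [sub_single_apply]
  by_cases h : i = j
  · subst h
    rw [if_pos rfl, Function.update_self]
  · rw [if_neg (fun h' => h (Fin.natAdd_injective b a h')), Function.update_of_ne h]

lemma lft_sub' (m : Fin (a + b) →₀ ℕ) (j : Fin b) :
    lft (m - Finsupp.single (Fin.natAdd a j) 1) = lft m := by
  funext i
  unfold lft
  rw [sub_single_apply, if_neg (cast_ne_nat i j)]

lemma sum_update {c : ℕ} (g : Fin c → ℕ) (j : Fin c) (hx : g j ≠ 0) :
    ∑ i, Function.update g j (g j - 1) i = (∑ i, g i) - 1 := by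
  rw [← Finset.add_sum_erase _ _ (Finset.mem_univ j),
    ← Finset.add_sum_erase _ g (Finset.mem_univ j), Function.update_self]
  have : ∀ i ∈ Finset.univ.erase j, Function.update g j (g j - 1) i = g i := fun i hi =>
    Function.update_of_ne (Finset.ne_of_mem_erase hi) _ _
  rw [Finset.sum_congr rfl this]
  change g j - 1 + ∑ x ∈ Finset.univ.erase j, g x = g j + ∑ x ∈ Finset.univ.erase j, g x - 1
  omega

lemma compat {K : Type*} [Field K] {d : ℕ} (hd : 1 ≤ d) (w : Fin (a + b) →₀ ℕ)
    (Φ : Multiset ℕ × ℕ × Multiset ℕ × ℕ → K) :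
    ∑ c, (w c : K) * Φ (bt a b d (w - Finsupp.single c 1)) =
      ((((bt a b d w).2.1 : K) - (((bt a b d w).1.sum : ℕ) : K)) *
          Φ ((bt a b d w).1, (bt a b d w).2.1 - 1, (bt a b d w).2.2) +
        ((bt a b d w).1.map fun x : ℕ => (x : K) *
          Φ (step d (bt a b d w).1 x, (bt a b d w).2.1 - 1, (bt a b d w).2.2)).sum) +
      ((((bt a b d w).2.2.2 : K) - (((bt a b d w).2.2.1.sum : ℕ) : K)) *
          Φ ((bt a b d w).1, (bt a b d w).2.1, (bt a b d w).2.2.1, (bt a b d w).2.2.2 - 1) +
        ((bt a b d w).2.2.1.map fun x : ℕ => (x : K) *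
          Φ ((bt a b d w).1, (bt a b d w).2.1, step d (bt a b d w).2.2.1 x,
            (bt a b d w).2.2.2 - 1)).sum) := by
  rw [Fin.sum_univ_add]
  congr 1
  · have h1 := sum_step (K := K) d (lft w) fun M => Φ (M, (bt a b d w).2.1 - 1, (bt a b d w).2.2)
    refine Eq.trans (Finset.sum_congr rfl fun j _ => ?_) h1
    by_cases h0 : lft w j = 0
    · have h0' : w (Fin.castAdd b j) = 0 := h0
      rw [h0, h0', Nat.cast_zero, zero_mul, zero_mul]
    · have h2 : bt a b d (w - Finsupp.single (Fin.castAdd b j) 1) =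
          (step d (big d (lft w)) (lft w j), (bt a b d w).2.1 - 1, (bt a b d w).2.2) := by
        unfold bt
        rw [lft_sub, rgt_sub, big_update hd _ _ h0, sum_update _ _ h0]
      rw [h2]
      rfl
  · have h1 := sum_step (K := K) d (rgt w) fun M =>
      Φ ((bt a b d w).1, (bt a b d w).2.1, M, (bt a b d w).2.2.2 - 1)
    refine Eq.trans (Finset.sum_congr rfl fun j _ => ?_) h1
    by_cases h0 : rgt w j = 0
    · have h0' : w (Fin.natAdd a j) = 0 := h0
      rw [h0, h0', Nat.cast_zero, zero_mul, zero_mul]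
    · have h2 : bt a b d (w - Finsupp.single (Fin.natAdd a j) 1) =
          ((bt a b d w).1, (bt a b d w).2.1, step d (big d (rgt w)) (rgt w j),
            (bt a b d w).2.2.2 - 1) := by
        unfold bt
        rw [lft_sub', rgt_sub', big_update hd _ _ h0, sum_update _ _ h0]
      rw [h2]
      rfl

/-- Non-injectivity by counting the types. -/
lemma not_inj_bt {K : Type*} [Field K] [CharZero K] {d k i : ℕ} (hd : 1 ≤ d)
    (hcard : (Th (bt a b d) d k (i + 1)).card < (Th (bt a b d) d k i).card) :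
    ¬ InjAt K (a + b) d k i 1 :=
  not_inj_of_types (bt a b d) hd (fun w _ w' _ h Φ => by rw [compat hd w Φ, compat hd w' Φ, h])
    hcard

end Pool.Agent.W5h40.Wlp
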