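import Pool.Agent.W5h40.Wlp.Blocks

set_option autoImplicit false

open MvPolynomial

namespace Pool.Agent.W5h40.Wlp

open Pool.Agent.Helper720.Pow

/-- the floor of a multiset of exponents -/
def flm (d : ℕ) (M : Multiset ℕ) : ℕ := (M.map (· / d)).sum

/-- the pairs of multisets which occur -/
structure Adm (a b d k : ℕ) (u : Multiset ℕ × Multiset ℕ) : Prop where
  h1 : ∀ x ∈ u.1, d ≤ x
  h2 : ∀ x ∈ u.2, d ≤ x
  c1 : Multiset.card u.1 ≤ a
  c2 : Multiset.card u.2 ≤ b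
  hf : flm d u.1 + flm d u.2 < k

lemma small_sum (d : ℕ) (T : Multiset ℕ) (h : ∀ x ∈ T, x < d) :
    T.sum ≤ Multiset.card T * (d - 1) := by
  have := Multiset.sum_le_card_nsmul T (d - 1) fun x hx => by have := h x hx; omega
  rwa [smul_eq_mul] at this

lemma big_facts (d : ℕ) {a : ℕ} (g : Fin a → ℕ) :
    (∀ x ∈ big d g, d ≤ x) ∧ Multiset.card (big d g) ≤ a ∧ (big d g).sum ≤ ∑ j, g j ∧
      ∑ j, g j ≤ (big d g).sum + (a - Multiset.card (big d g)) * (d - 1) ∧
      ∑ j, g j / d = flm d (big d g) := by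
  obtain ⟨S, hS⟩ : ∃ S, S = Finset.univ.val.map g := ⟨_, rfl⟩
  have h1 : (∑ j, g j) = S.sum := by rw [hS]; rfl
  have h2 : (∑ j, g j / d) = (S.map (· / d)).sum := by rw [hS, Multiset.map_map]; rfl
  have h3 : big d g = S.filter (d ≤ ·) := by rw [hS]; rfl
  have hc : Multiset.card S = a := by
    rw [hS, Multiset.card_map]
    exact (Finset.card_univ).trans (Fintype.card_fin a)
  have h4 : S = S.filter (d ≤ ·) + S.filter (fun x => ¬ d ≤ x) :=
    (Multiset.filter_add_not _ _).symm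
  obtain ⟨B, hB⟩ : ∃ B, B = S.filter (d ≤ ·) := ⟨_, rfl⟩
  obtain ⟨T, hT⟩ : ∃ T, T = S.filter (fun x => ¬ d ≤ x) := ⟨_, rfl⟩
  have hTs : ∀ x ∈ T, x < d := by
    intro x hx
    rw [hT] at hx
    have := (Multiset.mem_filter.1 hx).2
    omega
  have hBs : ∀ x ∈ B, d ≤ x := by
    intro x hx
    rw [hB] at hx
    exact (Multiset.mem_filter.1 hx).2
  rw [h1, h2, h3, ← hB]
  rw [← hB, ← hT] at h4
  rw [h4, Multiset.card_add] at hc
  have h5 := small_sum d T hTs
  have h6 : (T.map (· / d)).sum = 0 := by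
    rw [Multiset.sum_eq_zero_iff]
    intro y hy
    obtain ⟨x, hx, rfl⟩ := Multiset.mem_map.1 hy
    exact Nat.div_eq_of_lt (hTs x hx)
  refine ⟨hBs, by omega, ?_, ?_, ?_⟩
  · rw [h4, Multiset.sum_add]
    omega
  · rw [h4, Multiset.sum_add, show a - Multiset.card B = Multiset.card T by omega]
    omega
  · rw [h4, Multiset.map_add, Multiset.sum_add, h6, add_zero]
    rfl

lemma realize {d : ℕ} (hd : 1 ≤ d) (a : ℕ) : ∀ (M : Multiset ℕ) (R : ℕ), (∀ x ∈ M, d ≤ x) →
    Multiset.card M ≤ a → R ≤ (a - Multiset.card M) * (d - 1) →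
    ∃ g : Fin a → ℕ, big d g = M ∧ ∑ j, g j = M.sum + R := by
  induction a with
  | zero =>
    intro M R _ hc hR
    have hM : M = 0 := Multiset.card_eq_zero.1 (by omega)
    subst hM
    refine ⟨Fin.elim0, ?_, ?_⟩
    · unfold big
      simp
    · rw [Multiset.card_zero, Nat.sub_zero, zero_mul] at hR
      simp
      omega
  | succ a ih =>
    intro M R hM hc hR
    rcases M.empty_or_exists_mem with h0 | ⟨x, hx⟩
    · subst h0
      obtain ⟨g, hg1, hg2⟩ := ih 0 (R - min R (d - 1)) (by simp) (by simp) (by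
        rw [Multiset.card_zero, Nat.sub_zero] at hR ⊢
        rw [add_mul, one_mul] at hR
        omega)
      refine ⟨Fin.cons (min R (d - 1)) g, ?_, ?_⟩
      · rw [big_cons, if_neg (by omega), hg1]
      · rw [Fin.sum_univ_succ]
        simp only [Fin.cons_zero, Fin.cons_succ]
        rw [hg2, Multiset.sum_zero]
        omega
    · obtain ⟨M', rfl⟩ := Multiset.exists_cons_of_mem hx
      rw [Multiset.card_cons] at hc hR
      obtain ⟨g, hg1, hg2⟩ := ih M' R (fun y hy => hM y (Multiset.mem_cons_of_mem hy)) (by omega) (by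
        rw [show a + 1 - (Multiset.card M' + 1) = a - Multiset.card M' by omega] at hR
        exact hR)
      refine ⟨Fin.cons x g, ?_, ?_⟩
      · rw [big_cons, if_pos (hM x hx), hg1]
      · rw [Fin.sum_univ_succ]
        simp only [Fin.cons_zero, Fin.cons_succ]
        rw [hg2, Multiset.sum_cons]
        omega

variable {a b : ℕ}

lemma mem_Th_bt {d k i : ℕ} (hd : 1 ≤ d) (M₁ M₂ : Multiset ℕ) (t₁ t₂ : ℕ) :
    (M₁, t₁, M₂, t₂) ∈ Th (bt a b d) d k i ↔ Adm a b d k (M₁, M₂) ∧ M₁.sum ≤ t₁ ∧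
      t₁ ≤ M₁.sum + (a - Multiset.card M₁) * (d - 1) ∧ M₂.sum ≤ t₂ ∧
      t₂ ≤ M₂.sum + (b - Multiset.card M₂) * (d - 1) ∧ t₁ + t₂ = i := by
  have hdeg : ∀ m : Fin (a + b) →₀ ℕ, m.degree = ∑ j, lft m j + ∑ j, rgt m j := by
    intro m
    rw [Finsupp.degree_eq_sum, Fin.sum_univ_add]
    rfl
  have hfl : ∀ m : Fin (a + b) →₀ ℕ, fl d m = ∑ j, lft m j / d + ∑ j, rgt m j / d := by
    intro m
    unfold fl
    rw [Fin.sum_univ_add]
    rfl
  rw [mem_Th]
  constructor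
  · rintro ⟨m, hm, hτ⟩
    rw [mem_Bs, hdeg, hfl] at hm
    obtain ⟨p1, p2, p3, p4, p5⟩ := big_facts d (lft m)
    obtain ⟨q1, q2, q3, q4, q5⟩ := big_facts d (rgt m)
    unfold bt at hτ
    rw [Prod.mk.injEq, Prod.mk.injEq, Prod.mk.injEq] at hτ
    obtain ⟨e1, e2, e3, e4⟩ := hτ
    rw [e1] at p1 p2 p3 p4 p5
    rw [e3] at q1 q2 q3 q4 q5
    rw [e2] at p3 p4
    rw [e4] at q3 q4
    rw [e2, e4, p5, q5] at hm
    exact ⟨⟨p1, q1, p2, q2, hm.2⟩, p3, p4, q3, q4, hm.1⟩
  · rintro ⟨⟨h1, h2, c1, c2, hf⟩, p1, p2, p3, p4, hi⟩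
    simp only at h1 h2 c1 c2 hf
    obtain ⟨g₁, hg1, hg1'⟩ := realize hd a M₁ (t₁ - M₁.sum) h1 c1 (by omega)
    obtain ⟨g₂, hg2, hg2'⟩ := realize hd b M₂ (t₂ - M₂.sum) h2 c2 (by omega)
    obtain ⟨m, hm⟩ : ∃ m : Fin (a + b) →₀ ℕ,
      m = Finsupp.equivFunOnFinite.symm (Fin.append g₁ g₂) := ⟨_, rfl⟩
    have hl : lft m = g₁ := by
      funext j
      unfold lft
      rw [hm]
      exact Fin.append_left g₁ g₂ j
    have hr : rgt m = g₂ := by
      funext j
      unfold rgt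
      rw [hm]
      exact Fin.append_right g₁ g₂ j
    refine ⟨m, ?_, ?_⟩
    · rw [mem_Bs, hdeg, hfl, hl, hr, hg1', hg2', (big_facts d g₁).2.2.2.2,
        (big_facts d g₂).2.2.2.2, hg1, hg2]
      exact ⟨by omega, hf⟩
    · unfold bt
      rw [hl, hr, hg1, hg2, hg1', hg2']
      simp only [Prod.mk.injEq, true_and]
      omega

open Classical in
/-- the finite set of the pairs of multisets which occur -/
@[irreducible] noncomputable def UU (a b d k : ℕ) : Finset (Multiset ℕ × Multiset ℕ) :=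
  (((k • Multiset.range (k * d)).powerset.toFinset) ×ˢ
    ((k • Multiset.range (k * d)).powerset.toFinset)).filter (Adm a b d k)

lemma flm_card {d : ℕ} (hd : 1 ≤ d) {M : Multiset ℕ} (h : ∀ x ∈ M, d ≤ x) :
    Multiset.card M ≤ flm d M := by
  have h1 : ∀ x ∈ M.map (· / d), 1 ≤ x := by
    intro y hy
    obtain ⟨x, hx, rfl⟩ := Multiset.mem_map.1 hy
    exact (Nat.one_le_div_iff (by omega)).2 (h x hx)
  have := Multiset.card_nsmul_le_sum h1
  rw [Multiset.card_map, smul_eq_mul, mul_one] at this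
  exact this

lemma le_range {d k : ℕ} (hd : 1 ≤ d) {M : Multiset ℕ} (h : ∀ x ∈ M, d ≤ x) (hf : flm d M < k) :
    M ≤ k • Multiset.range (k * d) := by
  rw [Multiset.le_iff_count]
  intro x
  by_cases hx : x ∈ M
  · rw [Multiset.count_nsmul]
    have h1 : x < k * d := by
      have h2 : x / d ≤ flm d M :=
        Multiset.single_le_sum (fun _ _ => Nat.zero_le _) _ (Multiset.mem_map_of_mem _ hx)
      have h3 : x / d < k := by omega
      exact (Nat.div_lt_iff_lt_mul (by omega)).1 h3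
    have h2 : Multiset.count x (Multiset.range (k * d)) = 1 :=
      Multiset.count_eq_one_of_mem (Multiset.nodup_range _) (Multiset.mem_range.2 h1)
    rw [h2, mul_one]
    have h3 := Multiset.count_le_card x M
    have h4 := flm_card hd h
    omega
  · rw [Multiset.count_eq_zero_of_notMem hx]
    exact Nat.zero_le _

lemma mem_UU {d k : ℕ} (hd : 1 ≤ d) {u : Multiset ℕ × Multiset ℕ} :
    u ∈ UU a b d k ↔ Adm a b d k u := by
  classical
  unfold UU
  rw [Finset.mem_filter, Finset.mem_product, Multiset.mem_toFinset, Multiset.mem_toFinset,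
    Multiset.mem_powerset, Multiset.mem_powerset]
  constructor
  · exact fun h => h.2
  · intro h
    have h1 := h.hf
    exact ⟨⟨le_range hd h.h1 (by omega), le_range hd h.h2 (by omega)⟩, h⟩

/-- the number of lattice points of a segment -/
noncomputable def cnt (A₁ A₂ r : ℤ) : ℤ := ((Finset.Icc (max 0 (r - A₂)) (min A₁ r)).card : ℤ)

lemma cnt_diff (A₁ A₂ r : ℤ) (h1 : 0 ≤ A₁) (h2 : 0 ≤ A₂) :
    cnt A₁ A₂ (r - 1) - cnt A₁ A₂ r =
      (if max A₁ A₂ < r ∧ r ≤ A₁ + A₂ + 1 then 1 else 0) -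
        (if 0 ≤ r ∧ r ≤ min A₁ A₂ then 1 else 0) := by
  unfold cnt
  rw [Int.card_Icc, Int.card_Icc]
  split_ifs <;> omega

/-- the remaining degree -/
def rr (i : ℕ) (u : Multiset ℕ × Multiset ℕ) : ℤ := (i : ℤ) - (u.1.sum : ℕ) - (u.2.sum : ℕ)

/-- the capacity of a block -/
def cap (a d : ℕ) (M : Multiset ℕ) : ℤ := ((a - Multiset.card M : ℕ) : ℤ) * ((d - 1 : ℕ) : ℤ)

lemma cap_nonneg (a d : ℕ) (M : Multiset ℕ) : 0 ≤ cap a d M := by
  unfold cap
  positivity

lemma cap_eq (a d : ℕ) (M : Multiset ℕ) :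
    cap a d M = (((a - Multiset.card M) * (d - 1) : ℕ) : ℤ) := by
  unfold cap
  push_cast
  ring

lemma card_Th {d k : ℕ} (hd : 1 ≤ d) (i : ℕ) : ((Th (bt a b d) d k i).card : ℤ) =
    ∑ u ∈ UU a b d k, cnt (cap a d u.1) (cap b d u.2) (rr i u) := by
  classical
  have h1 : (Th (bt a b d) d k i).card = ∑ u ∈ UU a b d k,
      ((Th (bt a b d) d k i).filter fun θ => (θ.1, θ.2.2.1) = u).card :=
    Finset.card_eq_sum_card_fiberwise fun θ hθ => by
      obtain ⟨M₁, t₁, M₂, t₂⟩ := θ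
      have h2 : (M₁, t₁, M₂, t₂) ∈ Th (bt a b d) d k i := hθ
      rw [mem_Th_bt hd] at h2
      have h3 : (M₁, M₂) ∈ UU a b d k := (mem_UU hd).2 h2.1
      exact h3
  rw [h1]
  push_cast
  refine Finset.sum_congr rfl fun u hu => ?_
  rw [mem_UU hd] at hu
  unfold cnt
  congr 1
  refine Finset.card_nbij' (fun θ => (θ.2.1 : ℤ) - (u.1.sum : ℕ))
    (fun R => (u.1, ((u.1.sum : ℕ) + R : ℤ).toNat, u.2, ((i : ℤ) - (u.1.sum : ℕ) - R).toNat))
    ?_ ?_ ?_ ?_
  · rintro ⟨M₁, t₁, M₂, t₂⟩ hθ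
    rw [Finset.mem_coe, Finset.mem_filter, mem_Th_bt hd] at hθ
    obtain ⟨⟨_, p1, p2, p3, p4, hi⟩, hu'⟩ := hθ
    simp only at hu'
    rw [← hu', Finset.mem_coe, Finset.mem_Icc, cap_eq, cap_eq]
    unfold rr
    simp only
    omega
  · intro R hR
    rw [Finset.mem_coe, Finset.mem_Icc, cap_eq, cap_eq] at hR
    unfold rr at hR
    rw [Finset.mem_coe, Finset.mem_filter, mem_Th_bt hd]
    refine ⟨⟨hu, ?_⟩, rfl⟩
    omega
  · rintro ⟨M₁, t₁, M₂, t₂⟩ hθ
    rw [Finset.mem_coe, Finset.mem_filter, mem_Th_bt hd] at hθ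
    obtain ⟨⟨_, p1, p2, p3, p4, hi⟩, hu'⟩ := hθ
    simp only at hu'
    rw [← hu']
    simp only [Prod.mk.injEq, true_and]
    omega
  · intro R hR
    rw [Finset.mem_coe, Finset.mem_Icc, cap_eq, cap_eq] at hR
    simp only
    omega

open Classical in
/-- the types which disappear -/
noncomputable def Pos (a b d k m : ℕ) : Finset (Multiset ℕ × Multiset ℕ) :=
  (UU a b d k).filter fun u => max (cap a d u.1) (cap b d u.2) < rr m u ∧
    rr m u ≤ cap a d u.1 + cap b d u.2 + 1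

open Classical in
/-- the types which appear -/
noncomputable def Neg (a b d k m : ℕ) : Finset (Multiset ℕ × Multiset ℕ) :=
  (UU a b d k).filter fun u => 0 ≤ rr m u ∧ rr m u ≤ min (cap a d u.1) (cap b d u.2)

lemma card_diff {d k : ℕ} (hd : 1 ≤ d) (i : ℕ) :
    ((Th (bt a b d) d k i).card : ℤ) - (Th (bt a b d) d k (i + 1)).card =
      (Pos a b d k (i + 1)).card - (Neg a b d k (i + 1)).card := by
  classical
  rw [card_Th hd, card_Th hd, ← Finset.sum_sub_distrib]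
  unfold Pos Neg
  rw [Finset.card_filter, Finset.card_filter]
  push_cast
  rw [← Finset.sum_sub_distrib]
  refine Finset.sum_congr rfl fun u _ => ?_
  have h1 : rr i u = rr (i + 1) u - 1 := by
    unfold rr
    push_cast
    ring
  rw [h1, cnt_diff _ _ _ (cap_nonneg _ _ _) (cap_nonneg _ _ _)]

/-- Non-injectivity: more types disappear than appear. -/
theorem not_inj_blocks {K : Type*} [Field K] [CharZero K] {d k i : ℕ} (hd : 1 ≤ d)
    (h : (Neg a b d k (i + 1)).card < (Pos a b d k (i + 1)).card) :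
    ¬ InjAt K (a + b) d k i 1 := by
  apply not_inj_bt hd
  have := card_diff (a := a) (b := b) (k := k) hd i
  omega

end Pool.Agent.W5h40.Wlp
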