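import Pool.Agent.W5h40.Wlp.Card

set_option autoImplicit false

open MvPolynomial

namespace Pool.Agent.W5h40.Wlp

open Pool.Agent.Helper720.Pow

open Classical in
/-- multisets of size `c` and sum at most `T` -/
noncomputable def PP (c T : ℕ) : Finset (Multiset ℕ) :=
  ((c • Multiset.range (T + 1)).powerset.toFinset).filter fun P =>
    Multiset.card P = c ∧ P.sum ≤ T

lemma mem_PP {c T : ℕ} {P : Multiset ℕ} :
    P ∈ PP c T ↔ Multiset.card P = c ∧ P.sum ≤ T := by
  classical
  unfold PP
  rw [Finset.mem_filter, Multiset.mem_toFinset, Multiset.mem_powerset]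
  constructor
  · exact fun h => h.2
  · rintro ⟨hc, hs⟩
    refine ⟨?_, hc, hs⟩
    rw [Multiset.le_iff_count]
    intro x
    by_cases hx : x ∈ P
    · have h1 : x ≤ P.sum := Multiset.single_le_sum (fun _ _ => Nat.zero_le _) _ hx
      rw [Multiset.count_nsmul, Multiset.count_eq_one_of_mem (Multiset.nodup_range _)
        (Multiset.mem_range.2 (by omega)), mul_one, ← hc]
      exact Multiset.count_le_card x P
    · rw [Multiset.count_eq_zero_of_notMem hx]
      exact Nat.zero_le _

lemma card_PP_lt {c T : ℕ} (hc : 1 ≤ c) : (PP c T).card < (PP c (T + 1)).card := by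
  apply Finset.card_lt_card
  rw [Finset.ssubset_iff_of_subset]
  · refine ⟨(T + 1) ::ₘ Multiset.replicate (c - 1) 0, ?_, ?_⟩
    · rw [mem_PP, Multiset.card_cons, Multiset.card_replicate, Multiset.sum_cons,
        Multiset.sum_replicate, smul_zero]
      omega
    · rw [mem_PP, Multiset.sum_cons, Multiset.sum_replicate, smul_zero]
      omega
  · intro P hP
    rw [mem_PP] at hP ⊢
    omega

lemma sum_le_flm {d : ℕ} (hd : 1 ≤ d) (M : Multiset ℕ) :
    M.sum ≤ d * flm d M + Multiset.card M * (d - 1) := by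
  induction M using Multiset.induction_on with
  | empty => simp
  | cons x M ih =>
    unfold flm at ih ⊢
    rw [Multiset.sum_cons, Multiset.map_cons, Multiset.sum_cons, Multiset.card_cons, mul_add,
      add_mul, one_mul]
    have h1 := Nat.div_add_mod x d
    have h2 := Nat.mod_lt x (show 0 < d by omega)
    omega

/-- if the floor is the cardinality, all floors are one -/
lemma lt_two_of_flm {d : ℕ} (hd : 1 ≤ d) {M : Multiset ℕ} (h : ∀ x ∈ M, d ≤ x)
    (hf : flm d M = Multiset.card M) : ∀ x ∈ M, x < 2 * d := by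
  intro x hx
  obtain ⟨M', rfl⟩ := Multiset.exists_cons_of_mem hx
  have h1 := flm_card hd (M := M') fun y hy => h y (Multiset.mem_cons_of_mem hy)
  unfold flm at hf h1
  rw [Multiset.map_cons, Multiset.sum_cons, Multiset.card_cons] at hf
  have h2 : x / d < 2 := by omega
  exact (Nat.div_lt_iff_lt_mul (by omega)).1 h2

lemma compl_sum {N : ℕ} {M : Multiset ℕ} (h : ∀ x ∈ M, x ≤ N) :
    (M.map fun x => N - x).sum + M.sum = Multiset.card M * N := by
  induction M using Multiset.induction_on with
  | empty => simp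
  | cons x M ih =>
    rw [Multiset.map_cons, Multiset.sum_cons, Multiset.sum_cons, Multiset.card_cons, add_mul,
      one_mul]
    have h1 := ih fun y hy => h y (Multiset.mem_cons_of_mem hy)
    have h2 := h x (Multiset.mem_cons_self x M)
    omega

lemma compl_compl {N : ℕ} {M : Multiset ℕ} (h : ∀ x ∈ M, x ≤ N) :
    (M.map fun x => N - x).map (fun x => N - x) = M := by
  rw [Multiset.map_map]
  conv_rhs => rw [← Multiset.map_id M]
  refine Multiset.map_congr rfl fun x hx => ?_
  have := h x hx
  simp only [Function.comp, id]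
  omega

/-- the multiset of exponents of a partition -/
def expo (D : ℕ) (P : Multiset ℕ) : Multiset ℕ := (P.filter (0 < ·)).map (· + D)

lemma expo_inj {D c : ℕ} {P Q : Multiset ℕ} (hP : Multiset.card P = c) (hQ : Multiset.card Q = c)
    (h : expo D P = expo D Q) : P = Q := by
  unfold expo at h
  have h1 : P.filter (0 < ·) = Q.filter (0 < ·) :=
    Multiset.map_injective (add_left_injective D) h
  have h2 : ∀ S : Multiset ℕ, Multiset.card S = c →
      S = S.filter (0 < ·) + Multiset.replicate (c - Multiset.card (S.filter (0 < ·))) 0 := by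
    intro S hS
    have h3 : S.filter (0 < ·) + S.filter (fun x => ¬ 0 < x) = S := Multiset.filter_add_not _ _
    have h4 : S.filter (fun x => ¬ 0 < x) =
        Multiset.replicate (Multiset.card (S.filter (fun x => ¬ 0 < x))) 0 := by
      rw [Multiset.eq_replicate]
      refine ⟨rfl, fun x hx => ?_⟩
      have := (Multiset.mem_filter.1 hx).2
      omega
    have h5 := congrArg Multiset.card h3
    rw [Multiset.card_add, hS] at h5
    conv_lhs => rw [← h3, h4]
    congr 2
    omega
  rw [h2 P hP, h2 Q hQ, h1]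

lemma expo_sum (D : ℕ) (P : Multiset ℕ) :
    (expo D P).sum = P.sum + Multiset.card (P.filter (0 < ·)) * D := by
  unfold expo
  have h1 : P.sum = (P.filter (0 < ·)).sum := by
    have h3 : P.filter (0 < ·) + P.filter (fun x => ¬ 0 < x) = P := Multiset.filter_add_not _ _
    conv_lhs => rw [← h3]
    rw [Multiset.sum_add]
    have h4 : (P.filter (fun x => ¬ 0 < x)).sum = 0 := by
      rw [Multiset.sum_eq_zero_iff]
      intro x hx
      have := (Multiset.mem_filter.1 hx).2
      omega
    omega
  rw [h1]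
  induction (P.filter (0 < ·)) using Multiset.induction_on with
  | empty => simp
  | cons x M ih =>
    rw [Multiset.map_cons, Multiset.sum_cons, Multiset.sum_cons, Multiset.card_cons, add_mul,
      one_mul]
    omega

lemma expo_card (D : ℕ) (P : Multiset ℕ) :
    Multiset.card (expo D P) = Multiset.card (P.filter (0 < ·)) := Multiset.card_map _ _

lemma expo_mem {D : ℕ} {P : Multiset ℕ} {x : ℕ} (hx : x ∈ expo D P) :
    D + 1 ≤ x ∧ x ≤ D + P.sum := by
  unfold expo at hx
  obtain ⟨y, hy, rfl⟩ := Multiset.mem_map.1 hx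
  rw [Multiset.mem_filter] at hy
  have : y ≤ P.sum := Multiset.single_le_sum (fun _ _ => Nat.zero_le _) _ hy.1
  omega

lemma flm_expo {D : ℕ} {P : Multiset ℕ} (hP : P.sum ≤ D + 1) :
    flm (D + 1) (expo D P) = Multiset.card (P.filter (0 < ·)) := by
  unfold flm
  have h1 : (expo D P).map (· / (D + 1)) = (expo D P).map (fun _ => 1) := by
    refine Multiset.map_congr rfl fun x hx => ?_
    have := expo_mem hx
    rw [Nat.div_eq_iff (by omega)]
    omega
  rw [h1, Multiset.map_const', Multiset.sum_replicate, smul_eq_mul, mul_one, expo_card]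

/-- the unified family of failures -/
theorem not_inj_family {K : Type*} [Field K] [CharZero K] {c D x y b i : ℕ} (hD : 1 ≤ D)
    (hb : 1 ≤ b) (hx : c ≤ x) (hy : (x * D = 2 * y ∧ c = 2) ∨ (x * D = 2 * y + 1 ∧ c = 3))
    (hT1 : y ≤ c * D) (hT2 : c * D < y + D) (hi : i + 1 = c * (D + 1) + (b * D + y)) :
    ¬ InjAt K ((b + x) + b) (D + 1) (c + 1) i 1 := by
  have hd : 1 ≤ D + 1 := by omega
  have hc : 1 ≤ c := by omega
  apply not_inj_blocks hd
  obtain ⟨T, hT⟩ : ∃ T, c * D = y + T := ⟨c * D - y, by omega⟩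
  have hcd : c * (D + 1) = c * D + c := by ring
  have hmain : (Neg (b + x) b (D + 1) (c + 1) (i + 1)).card ≤ (PP c T).card := by
    have hneg : ∀ u ∈ Neg (b + x) b (D + 1) (c + 1) (i + 1), u.2 = 0 ∧ Multiset.card u.1 = c ∧
        (∀ e ∈ u.1, e ≤ 2 * D + 1) ∧ (u.1.map fun e => 2 * D + 1 - e).sum ≤ T := by
      intro u hu
      unfold Neg at hu
      rw [Finset.mem_filter, mem_UU hd] at hu
      obtain ⟨⟨h1, h2, c1, c2, hf⟩, h0, hr⟩ := hu
      have s1 := sum_le_flm hd u.1
      have s2 := sum_le_flm hd u.2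
      have f1 := flm_card hd h1
      have f2 := flm_card hd h2
      rw [le_min_iff, cap_eq, cap_eq] at hr
      obtain ⟨hr1, hr2⟩ := hr
      unfold rr at h0 hr1 hr2
      rw [show D + 1 - 1 = D by omega] at hr1 hr2 s1 s2
      obtain ⟨F₁, hF₁⟩ : ∃ F, F = flm (D + 1) u.1 := ⟨_, rfl⟩
      obtain ⟨F₂, hF₂⟩ : ∃ F, F = flm (D + 1) u.2 := ⟨_, rfl⟩
      obtain ⟨l₁, hl₁⟩ : ∃ l, l = Multiset.card u.1 := ⟨_, rfl⟩
      obtain ⟨l₂, hl₂⟩ : ∃ l, l = Multiset.card u.2 := ⟨_, rfl⟩
      rw [← hF₁] at s1 f1 hf
      rw [← hF₂] at s2 f2 hf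
      rw [← hl₁] at s1 f1 c1 hr1
      rw [← hl₂] at s2 f2 c2 hr2
      obtain ⟨g, hg⟩ : ∃ g, c = F₁ + F₂ + g := ⟨c - (F₁ + F₂), by omega⟩
      have e1 : (D + 1) * F₁ + (D + 1) * F₂ + (D + 1) * g = c * (D + 1) := by rw [hg]; ring
      have e2 : (b - l₂) * D + l₂ * D = b * D := by
        rw [← add_mul]
        congr 1
        omega
      have e3 : y ≤ l₁ * D := by
        have := Nat.zero_le ((D + 1) * g)
        omega
      have e4 : c ≤ l₁ := by
        by_contra hcon
        have h5 : l₁ + 1 ≤ c := by omega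
        have h6 : (l₁ + 1) * D ≤ c * D := Nat.mul_le_mul_right _ h5
        rw [add_mul, one_mul] at h6
        omega
      have e5 : F₁ = c := by omega
      have e6 : F₂ = 0 := by omega
      have e7 : l₁ = c := by omega
      have e8 : l₂ = 0 := by omega
      have hu2 : u.2 = 0 := Multiset.card_eq_zero.1 (by omega)
      have h9 := lt_two_of_flm hd h1 (by omega)
      have h10 : ∀ e ∈ u.1, e ≤ 2 * D + 1 := fun e he => by have := h9 e he; omega
      refine ⟨hu2, by omega, h10, ?_⟩
      have h11 := compl_sum h10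
      rw [← hl₁, e7] at h11
      have h12 : c * (2 * D + 1) = 2 * (c * D) + c := by ring
      rw [hu2, Multiset.sum_zero] at hr2
      rw [e8, zero_mul, add_zero, Nat.sub_zero] at e2
      rw [e8, Nat.sub_zero] at hr2
      omega
    refine Finset.card_le_card_of_injOn (fun u => u.1.map fun e => 2 * D + 1 - e) ?_ ?_
    · intro u hu
      obtain ⟨_, h2, _, h4⟩ := hneg u hu
      rw [Finset.mem_coe, mem_PP, Multiset.card_map]
      exact ⟨h2, h4⟩
    · intro u hu v hv huv
      obtain ⟨u2, _, u3, _⟩ := hneg u hu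
      obtain ⟨v2, _, v3, _⟩ := hneg v hv
      simp only at huv
      have h1 : u.1 = v.1 := by
        rw [← compl_compl u3, ← compl_compl v3, huv]
      exact Prod.ext h1 (u2.trans v2.symm)
  have hmain2 : (PP c (T + 1)).card ≤ (Pos (b + x) b (D + 1) (c + 1) (i + 1)).card := by
    refine Finset.card_le_card_of_injOn (fun P => (expo D P, (0 : Multiset ℕ))) ?_ ?_
    · intro P hP
      rw [Finset.mem_coe, mem_PP] at hP
      obtain ⟨hPc, hPs⟩ := hP
      have hTD : T < D := by omega
      obtain ⟨l, hl⟩ : ∃ l, l = Multiset.card (P.filter (0 < ·)) := ⟨_, rfl⟩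
      have hlc : l ≤ c := by
        rw [hl, ← hPc]
        exact Multiset.card_le_card (Multiset.filter_le _ _)
      rw [Finset.mem_coe]
      unfold Pos
      rw [Finset.mem_filter, mem_UU hd]
      refine ⟨⟨?_, ?_, ?_, ?_, ?_⟩, ?_⟩
      · intro e he
        exact (expo_mem he).1
      · intro e he
        exact absurd he (Multiset.notMem_zero e)
      · simp only
        rw [expo_card, ← hl]
        omega
      · simp
      · simp only
        rw [flm_expo (by omega), ← hl]
        unfold flm
        simp only [Multiset.map_zero, Multiset.sum_zero]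
        omega
      · simp only
        rw [cap_eq, cap_eq]
        unfold rr
        simp only
        rw [expo_card, expo_sum, ← hl, Multiset.sum_zero, Multiset.card_zero, Nat.sub_zero,
          show D + 1 - 1 = D by omega]
        have e1 : (b + x - l) * D + l * D = b * D + x * D := by
          rw [← add_mul, ← add_mul]
          congr 1
          omega
        have e2 : D ≤ b * D := Nat.le_mul_of_pos_left D hb
        have e3 : l * D ≤ c * D := Nat.mul_le_mul_right _ hlc
        rw [max_lt_iff]
        rcases hy with ⟨hy, hc2⟩ | ⟨hy, hc2⟩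
        · rw [hc2] at hT hcd e3 hi
          omega
        · rw [hc2] at hT hcd e3 hi
          omega
    · intro P hP Q hQ hPQ
      rw [Finset.mem_coe, mem_PP] at hP hQ
      simp only [Prod.mk.injEq, and_true] at hPQ
      exact expo_inj hP.1 hQ.1 hPQ
  exact lt_of_le_of_lt hmain (lt_of_lt_of_le (card_PP_lt hc) hmain2)

end Pool.Agent.W5h40.Wlp
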