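import Pool.Agent.W5h40.Wlp.Family

set_option autoImplicit false

open MvPolynomial

namespace Pool.Agent.W5h40.Wlp

open Pool.Agent.Helper720.Pow

open Classical in
/-- multisets of size `c` and sum `T` -/
noncomputable def PE (c T : ℕ) : Finset (Multiset ℕ) := (PP c T).filter fun P => P.sum = T

lemma mem_PE {c T : ℕ} {P : Multiset ℕ} :
    P ∈ PE c T ↔ Multiset.card P = c ∧ P.sum = T := by
  classical
  unfold PE
  rw [Finset.mem_filter, mem_PP]
  constructor
  · rintro ⟨⟨h1, _⟩, h2⟩
    exact ⟨h1, h2⟩
  · rintro ⟨h1, h2⟩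
    exact ⟨⟨h1, h2.le⟩, h2⟩

/-- raise the largest element -/
noncomputable def raise (P : Multiset ℕ) : Multiset ℕ := (P.sup + 1) ::ₘ P.erase P.sup

lemma sup_mem {P : Multiset ℕ} (h : P ≠ 0) : P.sup ∈ P := by
  induction P using Multiset.induction_on with
  | empty => exact absurd rfl h
  | cons x M ih =>
    rw [Multiset.sup_cons]
    by_cases hM : M = 0
    · subst hM
      simp
    · rcases le_total x M.sup with h1 | h1
      · rw [sup_eq_right.2 h1]
        exact Multiset.mem_cons_of_mem (ih hM)
      · rw [sup_eq_left.2 h1]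
        exact Multiset.mem_cons_self _ _

lemma raise_sup {P : Multiset ℕ} : (raise P).sup = P.sup + 1 := by
  unfold raise
  rw [Multiset.sup_cons]
  apply sup_eq_left.2
  rw [Multiset.sup_le]
  intro x hx
  have := Multiset.le_sup (Multiset.mem_of_mem_erase hx)
  omega

lemma raise_erase {P : Multiset ℕ} : (raise P).erase (raise P).sup = P.erase P.sup := by
  rw [raise_sup]
  unfold raise
  rw [Multiset.erase_cons_head]

lemma card_PE_lt {T : ℕ} (hT : 2 ≤ T) : (PE 3 T).card < (PE 3 (T + 1)).card := by
  classical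
  -- a multiset with two maxima
  obtain ⟨q, r, hq, hr, hqr⟩ : ∃ q r : ℕ, 2 * q + r = T + 1 ∧ r ≤ q ∧ 1 ≤ q := by
    rcases Nat.even_or_odd' T with ⟨s, hs | hs⟩
    · exact ⟨s, 1, by omega, by omega, by omega⟩
    · exact ⟨s + 1, 0, by omega, by omega, by omega⟩
  have hstar : ({q, q, r} : Multiset ℕ) ∈ PE 3 (T + 1) := by
    rw [mem_PE]
    refine ⟨rfl, ?_⟩
    simp only [Multiset.insert_eq_cons, Multiset.sum_cons, Multiset.sum_singleton]
    omega
  have h1 : (PE 3 T).card ≤ ((PE 3 (T + 1)).erase {q, q, r}).card := by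
    refine Finset.card_le_card_of_injOn raise ?_ ?_
    · intro P hP
      rw [Finset.mem_coe, mem_PE] at hP
      have hP0 : P ≠ 0 := by
        rintro rfl
        simp at hP
      have hm := sup_mem hP0
      rw [Finset.mem_coe, Finset.mem_erase, mem_PE]
      refine ⟨?_, ?_, ?_⟩
      · intro h
        have h2 : (raise P).erase (raise P).sup = ({q, r} : Multiset ℕ) := by
          have h3 : (raise P).sup = q := by
            rw [h]
            simp [hr]
          rw [h3, h]
          simp
        rw [raise_erase] at h2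
        have h4 : q ∈ P.erase P.sup := by
          rw [h2]
          simp
        have h5 := Multiset.le_sup (Multiset.mem_of_mem_erase h4)
        have h6 : (raise P).sup = q := by
          rw [h]
          simp [hr]
        rw [raise_sup] at h6
        omega
      · unfold raise
        rw [Multiset.card_cons, Multiset.card_erase_of_mem hm, hP.1]
        rfl
      · have h2 := Multiset.cons_erase hm
        have h3 : (P.sup ::ₘ P.erase P.sup).sum = T := by rw [h2]; exact hP.2
        unfold raise
        rw [Multiset.sum_cons] at h3 ⊢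
        omega
    · intro P hP Q hQ hPQ
      rw [Finset.mem_coe, mem_PE] at hP hQ
      have hP0 : P ≠ 0 := by
        rintro rfl
        simp at hP
      have hQ0 : Q ≠ 0 := by
        rintro rfl
        simp at hQ
      have e1 : P.sup = Q.sup := by
        have := congrArg Multiset.sup hPQ
        rw [raise_sup, raise_sup] at this
        omega
      have e2 : P.erase P.sup = Q.erase Q.sup := by
        rw [← raise_erase, ← raise_erase (P := Q), hPQ]
      rw [← Multiset.cons_erase (sup_mem hP0), ← Multiset.cons_erase (sup_mem hQ0), e2, e1]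
  rw [Finset.card_erase_of_mem hstar] at h1
  have h2 : 0 < (PE 3 (T + 1)).card := Finset.card_pos.2 ⟨_, hstar⟩
  omega

/-- five variables -/
theorem not_inj_five {K : Type*} [Field K] [CharZero K] {D y i : ℕ} (hD : 3 ≤ D)
    (hy : 5 * D = 2 * y + 1) (hi : i + 1 = 3 * (D + 1) + y) :
    ¬ InjAt K (5 + 0) (D + 1) (3 + 1) i 1 := by
  have hd : 1 ≤ D + 1 := by omega
  apply not_inj_blocks hd
  obtain ⟨T, hT⟩ : ∃ T, 3 * D = y + T := ⟨3 * D - y, by omega⟩
  have hmain : (Neg 5 0 (D + 1) (3 + 1) (i + 1)).card ≤ (PE 3 T).card := by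
    have hneg : ∀ u ∈ Neg 5 0 (D + 1) (3 + 1) (i + 1), u.2 = 0 ∧ Multiset.card u.1 = 3 ∧
        (∀ e ∈ u.1, e ≤ 2 * D + 1) ∧ (u.1.map fun e => 2 * D + 1 - e).sum = T := by
      intro u hu
      unfold Neg at hu
      rw [Finset.mem_filter, mem_UU hd] at hu
      obtain ⟨⟨h1, h2, c1, c2, hf⟩, h0, hr⟩ := hu
      have hu2 : u.2 = 0 := Multiset.card_eq_zero.1 (by omega)
      have s1 := sum_le_flm hd u.1
      have f1 := flm_card hd h1
      rw [le_min_iff, cap_eq, cap_eq] at hr
      obtain ⟨hr1, hr2⟩ := hr
      unfold rr at h0 hr1 hr2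
      rw [hu2, Multiset.sum_zero] at h0 hr1 hr2
      rw [hu2] at hf
      unfold flm at hf
      rw [Multiset.map_zero, Multiset.sum_zero, add_zero] at hf
      change flm (D + 1) u.1 < 4 at hf
      rw [show D + 1 - 1 = D by omega] at s1 hr1 hr2
      rw [Multiset.card_zero, Nat.sub_zero, zero_mul] at hr2
      obtain ⟨F₁, hF₁⟩ : ∃ F, F = flm (D + 1) u.1 := ⟨_, rfl⟩
      obtain ⟨l₁, hl₁⟩ : ∃ l, l = Multiset.card u.1 := ⟨_, rfl⟩
      rw [← hF₁] at s1 f1 hf
      rw [← hl₁] at s1 f1 c1 hr1
      have e4 : l₁ = 3 ∧ F₁ = 3 := by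
        have hF : (D + 1) * F₁ ≤ (D + 1) * 3 := Nat.mul_le_mul_left _ (by omega)
        have : 3 ≤ l₁ := by
          by_contra hcon
          have : l₁ * D ≤ 2 * D := Nat.mul_le_mul_right _ (by omega)
          omega
        omega
      have h9 := lt_two_of_flm hd h1 (by omega)
      have h10 : ∀ e ∈ u.1, e ≤ 2 * D + 1 := fun e he => by have := h9 e he; omega
      refine ⟨hu2, by omega, h10, ?_⟩
      have h11 := compl_sum h10
      rw [← hl₁, e4.1] at h11
      omega
    refine Finset.card_le_card_of_injOn (fun u => u.1.map fun e => 2 * D + 1 - e) ?_ ?_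
    · intro u hu
      obtain ⟨_, h2, _, h4⟩ := hneg u hu
      rw [Finset.mem_coe, mem_PE, Multiset.card_map]
      exact ⟨h2, h4⟩
    · intro u hu v hv huv
      obtain ⟨u2, _, u3, _⟩ := hneg u hu
      obtain ⟨v2, _, v3, _⟩ := hneg v hv
      simp only at huv
      have h1 : u.1 = v.1 := by
        rw [← compl_compl u3, ← compl_compl v3, huv]
      exact Prod.ext h1 (u2.trans v2.symm)
  have hmain2 : (PE 3 (T + 1)).card ≤ (Pos 5 0 (D + 1) (3 + 1) (i + 1)).card := by
    refine Finset.card_le_card_of_injOn (fun P => (expo D P, (0 : Multiset ℕ))) ?_ ?_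
    · intro P hP
      rw [Finset.mem_coe, mem_PE] at hP
      obtain ⟨hPc, hPs⟩ := hP
      obtain ⟨l, hl⟩ : ∃ l, l = Multiset.card (P.filter (0 < ·)) := ⟨_, rfl⟩
      have hlc : l ≤ 3 := by
        rw [hl, ← hPc]
        exact Multiset.card_le_card (Multiset.filter_le _ _)
      rw [Finset.mem_coe]
      unfold Pos
      rw [Finset.mem_filter, mem_UU hd]
      refine ⟨⟨?_, ?_, ?_, ?_, ?_⟩, ?_⟩
      · intro e he
        exact (expo_mem he).1
      · intro e he
        exact absurd he (Multiset.notMem_zero e)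
      · simp only
        rw [expo_card, ← hl]
        omega
      · simp
      · simp only
        rw [flm_expo (by omega), ← hl]
        unfold flm
        simp only [Multiset.map_zero, Multiset.sum_zero]
        omega
      · simp only
        rw [cap_eq, cap_eq]
        unfold rr
        simp only
        rw [expo_card, expo_sum, ← hl, Multiset.sum_zero, Multiset.card_zero, Nat.sub_zero,
          show D + 1 - 1 = D by omega, zero_mul]
        have e1 : (5 - l) * D + l * D = 5 * D := by
          rw [← add_mul]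
          congr 1
          omega
        rw [max_lt_iff]
        omega
    · intro P hP Q hQ hPQ
      rw [Finset.mem_coe, mem_PE] at hP hQ
      simp only [Prod.mk.injEq, and_true] at hPQ
      exact expo_inj hP.1 hQ.1 hPQ
  exact lt_of_le_of_lt hmain (lt_of_lt_of_le (card_PE_lt (by omega)) hmain2)

end Pool.Agent.W5h40.Wlp
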