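import Pool.Agent.W5h40.Wlp.Family

set_option autoImplicit false
set_option maxRecDepth 20000

open MvPolynomial

namespace Pool.Agent.W5h40.Wlp

open Pool.Agent.Helper720.Pow

lemma neg_seven (u : Multiset ℕ × Multiset ℕ) (hu : u ∈ Neg 7 0 2 5 11) :
    u = ({3, 3, 5}, 0) ∨ u = ({2, 3, 3, 3}, 0) := by
  have hd : 1 ≤ 2 := by omega
  unfold Neg at hu
  rw [Finset.mem_filter, mem_UU hd] at hu
  obtain ⟨⟨h1, h2, c1, c2, hf⟩, h0, hr⟩ := hu
  have hu2 : u.2 = 0 := Multiset.card_eq_zero.1 (by omega)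
  have s1 := sum_le_flm hd u.1
  have f1 := flm_card hd h1
  rw [le_min_iff, cap_eq, cap_eq] at hr
  obtain ⟨hr1, hr2⟩ := hr
  unfold rr at h0 hr1 hr2
  rw [hu2, Multiset.sum_zero] at h0 hr1 hr2
  rw [hu2] at hf
  unfold flm at hf
  rw [Multiset.map_zero, Multiset.sum_zero, add_zero] at hf
  change flm 2 u.1 < 5 at hf
  rw [Multiset.card_zero, Nat.sub_zero, zero_mul] at hr2
  obtain ⟨M, N⟩ := u
  simp only at h1 h2 c1 c2 hf h0 hr1 hr2 hu2 s1 f1
  subst hu2
  have hs : M.sum = 11 := by omega
  have hF : flm 2 M = 4 := by omega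
  have hl : Multiset.card M = 3 ∨ Multiset.card M = 4 := by omega
  rcases hl with hl | hl
  · left
    obtain ⟨x, y, z, rfl⟩ := Multiset.card_eq_three.1 hl
    unfold flm at hF
    simp only [Multiset.insert_eq_cons, Multiset.map_cons, Multiset.map_singleton,
      Multiset.sum_cons, Multiset.sum_singleton] at hF hs
    have hx := h1 x (by simp)
    have hy := h1 y (by simp)
    have hz := h1 z (by simp)
    rcases (by omega : (x = 5 ∧ y = 3 ∧ z = 3) ∨ (x = 3 ∧ y = 5 ∧ z = 3) ∨
      (x = 3 ∧ y = 3 ∧ z = 5)) with ⟨rfl, rfl, rfl⟩ | ⟨rfl, rfl, rfl⟩ | ⟨rfl, rfl, rfl⟩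
    all_goals
      refine Prod.ext ?_ rfl
      decide
  · right
    have h9 := lt_two_of_flm hd h1 (by omega)
    have h4 : M.filter (· = 2) + M.filter (fun x => ¬ x = 2) = M := Multiset.filter_add_not _ _
    have h5 : M.filter (· = 2) = Multiset.replicate (Multiset.card (M.filter (· = 2))) 2 := by
      rw [Multiset.eq_replicate]
      exact ⟨rfl, fun x hx => (Multiset.mem_filter.1 hx).2⟩
    have h6 : M.filter (fun x => ¬ x = 2) =
        Multiset.replicate (Multiset.card (M.filter (fun x => ¬ x = 2))) 3 := by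
      rw [Multiset.eq_replicate]
      refine ⟨rfl, fun x hx => ?_⟩
      rw [Multiset.mem_filter] at hx
      have := h1 x hx.1
      have := h9 x hx.1
      omega
    obtain ⟨p, hp⟩ : ∃ p, p = Multiset.card (M.filter (· = 2)) := ⟨_, rfl⟩
    obtain ⟨q, hq⟩ : ∃ q, q = Multiset.card (M.filter (fun x => ¬ x = 2)) := ⟨_, rfl⟩
    rw [← hp] at h5
    rw [← hq] at h6
    rw [h5, h6] at h4
    have e1 := congrArg Multiset.card h4
    have e2 := congrArg Multiset.sum h4
    rw [Multiset.card_add, Multiset.card_replicate, Multiset.card_replicate, hl] at e1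
    rw [Multiset.sum_add, Multiset.sum_replicate, Multiset.sum_replicate, hs, smul_eq_mul,
      smul_eq_mul] at e2
    have hp1 : p = 1 := by omega
    have hq3 : q = 3 := by omega
    refine Prod.ext ?_ rfl
    simp only
    rw [← h4, hp1, hq3]
    decide

/-- seven variables, squares, fifth power -/
theorem not_inj_seven {K : Type*} [Field K] [CharZero K] : ¬ InjAt K (7 + 0) 2 5 10 1 := by
  classical
  have hd : 1 ≤ 2 := by omega
  apply not_inj_blocks hd
  have h1 : (Neg 7 0 2 5 (10 + 1)).card ≤ 2 := by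
    have : Neg 7 0 2 5 (10 + 1) ⊆ {(({3, 3, 5} : Multiset ℕ), (0 : Multiset ℕ)),
        (({2, 3, 3, 3} : Multiset ℕ), (0 : Multiset ℕ))} := by
      intro u hu
      rw [Finset.mem_insert, Finset.mem_singleton]
      exact neg_seven u hu
    exact (Finset.card_le_card this).trans Finset.card_le_two
  have h2 : 3 ≤ (Pos 7 0 2 5 (10 + 1)).card := by
    have h3 : ({(({4} : Multiset ℕ), (0 : Multiset ℕ)), (({2, 3} : Multiset ℕ), (0 : Multiset ℕ)),
        (({2, 2, 2} : Multiset ℕ), (0 : Multiset ℕ))} : Finset (Multiset ℕ × Multiset ℕ)) ⊆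
        Pos 7 0 2 5 (10 + 1) := by
      intro u hu
      rw [Finset.mem_insert, Finset.mem_insert, Finset.mem_singleton] at hu
      unfold Pos
      rw [Finset.mem_filter, mem_UU hd]
      rcases hu with rfl | rfl | rfl
      all_goals
        refine ⟨⟨by decide, by simp, by decide, by decide, ?_⟩, ?_⟩
        · unfold flm
          decide
        · unfold cap rr
          simp
    refine le_trans ?_ (Finset.card_le_card h3)
    decide
  omega

end Pool.Agent.W5h40.Wlp
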