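import Pool.Agent.W5h40.Wlp.Main
import Pool.Agent.W5h40.Wlp.Family
import Pool.Agent.W5h40.Wlp.Five
import Pool.Agent.W5h40.Wlp.Seven

set_option autoImplicit false

open MvPolynomial

namespace Pool.Agent.W5h40.Wlp

open Pool.Agent.Helper720.Pow
open Pool.Agent.Helper720.Level (lin exists_lin lin_homogeneous)

variable {K : Type*} [Field K] [CharZero K]

lemma not_inj_add {n d k i : ℕ} (hn : 1 ≤ n) (hd : 1 ≤ d) (h : ¬ InjAt K n d k i 1) (t : ℕ) :
    ¬ InjAt K n d (k + t) (i + t * d) 1 := by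
  induction t with
  | zero => simpa using h
  | succ t ih =>
    have := not_inj_succ hn hd ih
    rw [show k + (t + 1) = k + t + 1 by omega, show i + (t + 1) * d = i + t * d + d by ring]
    exact this

/-- propagation from `k₀` to `k` -/
lemma not_inj_from {n d k k₀ i₀ i : ℕ} (hn : 1 ≤ n) (hd : 1 ≤ d) (hk : k₀ ≤ k)
    (h : ¬ InjAt K n d k₀ i₀ 1) (hi : i = i₀ + (k - k₀) * d) : ¬ InjAt K n d k i 1 := by
  have := not_inj_add hn hd h (k - k₀)
  rw [show k₀ + (k - k₀) = k by omega] at this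
  rw [hi]
  exact this

lemma mid_sub {d k k₀ a i : ℕ} (hk0 : 1 ≤ k₀) (hk : k₀ ≤ k) (hd : 1 ≤ d)
    (hi : i + 1 = (k - 1) * d + a) (ha : 1 ≤ (k₀ - 1) * d + a) :
    i = ((k₀ - 1) * d + a - 1) + (k - k₀) * d := by
  obtain ⟨t, rfl⟩ := Nat.exists_eq_add_of_le hk
  rw [show k₀ + t - 1 = (k₀ - 1) + t by omega, add_mul] at hi
  rw [show k₀ + t - k₀ = t by omega]
  omega

theorem not_inj_even {n d k i : ℕ} (hn : 5 ≤ n) (hd : 2 ≤ d) (hk : 3 ≤ k)
    (hi : i + 1 = (k - 1) * d + n * (d - 1) / 2) (he : 2 ∣ n * (d - 1)) :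
    ¬ InjAt K n d k i 1 := by
  have ha : 1 ≤ (3 - 1) * d + n * (d - 1) / 2 := by omega
  have hi' := mid_sub (by omega) hk (by omega) hi ha
  refine not_inj_from (by omega) (by omega) hk ?_ hi'
  obtain ⟨D, rfl⟩ : ∃ D, d = D + 1 := ⟨d - 1, by omega⟩
  rw [Nat.add_sub_cancel] at he ha ⊢
  rcases Nat.even_or_odd n with hne | hno
  · -- n = 2 b + 4
    obtain ⟨b, rfl⟩ : ∃ b, n = (b + 4) + b := by
      obtain ⟨e, he⟩ := hne
      exact ⟨e - 2, by omega⟩
    refine not_inj_family (c := 2) (D := D) (x := 4) (y := 2 * D) (b := b) (by omega) (by omega)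
      (by omega) (Or.inl ⟨by ring, rfl⟩) (by omega) (by omega) ?_
    have h1 : (b + 4 + b) * D / 2 = b * D + 2 * D := by
      rw [show (b + 4 + b) * D = (b * D + 2 * D) * 2 by ring, Nat.mul_div_cancel _ (by norm_num)]
    rw [h1] at ha ⊢
    omega
  · have hDe : Even D := by
      rw [← even_iff_two_dvd, Nat.even_mul] at he
      rcases he with h | h
      · exact absurd h (Nat.not_even_iff_odd.2 hno)
      · exact h
    obtain ⟨g, rfl⟩ := hDe
    obtain ⟨b, rfl⟩ : ∃ b, n = (b + 3) + b := by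
      obtain ⟨e, he⟩ := hno
      exact ⟨e - 1, by omega⟩
    refine not_inj_family (c := 2) (D := g + g) (x := 3) (y := 3 * g) (b := b) (by omega)
      (by omega) (by omega) (Or.inl ⟨by ring, rfl⟩) (by omega) (by omega) ?_
    have h1 : (b + 3 + b) * (g + g) / 2 = b * (g + g) + 3 * g := by
      rw [show (b + 3 + b) * (g + g) = (b * (g + g) + 3 * g) * 2 by ring,
        Nat.mul_div_cancel _ (by norm_num)]
    rw [h1] at ha ⊢
    omega

theorem not_inj_odd {n d k i : ℕ} (hn : 5 ≤ n) (hd : 2 ≤ d) (hk : 4 ≤ k)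
    (hi : i + 1 = (k - 1) * d + n * (d - 1) / 2) (he : ¬ 2 ∣ n * (d - 1))
    (h : 3 ≤ d ∨ 9 ≤ n) :
    ¬ InjAt K n d k i 1 := by
  have ha : 1 ≤ (4 - 1) * d + n * (d - 1) / 2 := by omega
  have hi' := mid_sub (by omega) hk (by omega) hi ha
  refine not_inj_from (by omega) (by omega) hk ?_ hi'
  obtain ⟨D, rfl⟩ : ∃ D, d = D + 1 := ⟨d - 1, by omega⟩
  rw [Nat.add_sub_cancel] at he ha ⊢
  rw [← even_iff_two_dvd, Nat.not_even_iff_odd, Nat.odd_mul] at he
  obtain ⟨hno, hDo⟩ := he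
  obtain ⟨g, rfl⟩ := hDo
  rcases Nat.eq_zero_or_pos g with rfl | hg
  · -- d = 2, n ≥ 9
    obtain ⟨b, rfl⟩ : ∃ b, n = (b + 7) + b := by
      obtain ⟨e, he⟩ := hno
      exact ⟨e - 3, by omega⟩
    refine not_inj_family (c := 3) (D := 2 * 0 + 1) (x := 7) (y := 3) (b := b) (by omega)
      (by omega) (by omega) (Or.inr ⟨by ring, rfl⟩) (by omega) (by omega) ?_
    omega
  · rcases Nat.lt_or_ge n 7 with hn7 | hn7
    · obtain rfl : n = 5 + 0 := by
        obtain ⟨e, he⟩ := hno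
        omega
      refine not_inj_five (D := 2 * g + 1) (y := 5 * g + 2) (by omega) (by ring) ?_
      omega
    · obtain ⟨b, rfl⟩ : ∃ b, n = (b + 5) + b := by
        obtain ⟨e, he⟩ := hno
        exact ⟨e - 2, by omega⟩
      refine not_inj_family (c := 3) (D := 2 * g + 1) (x := 5) (y := 5 * g + 2) (b := b) (by omega)
        (by omega) (by omega) (Or.inr ⟨by ring, rfl⟩) (by omega) (by omega) ?_
      have h1 : (b + 5 + b) * (2 * g + 1) / 2 = b * (2 * g + 1) + (5 * g + 2) := by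
        rw [show (b + 5 + b) * (2 * g + 1) = 1 + (b * (2 * g + 1) + (5 * g + 2)) * 2 by ring,
          Nat.add_mul_div_right _ _ (by norm_num)]
        omega
      rw [h1] at ha ⊢
      omega

theorem not_inj_seven_up {k i : ℕ} (hk : 5 ≤ k)
    (hi : i + 1 = (k - 1) * 2 + 7 * (2 - 1) / 2) :
    ¬ InjAt K 7 2 k i 1 := by
  refine not_inj_from (k₀ := 5) (i₀ := 10) (by omega) (by omega) hk ?_ (by omega)
  exact not_inj_seven

/-- injectivity fails from degree `m - 1` to degree `m` -/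
theorem not_inj_mid {n d k i : ℕ} (hn : 5 ≤ n) (hd : 2 ≤ d)
    (hi : i + 1 = (k - 1) * d + n * (d - 1) / 2)
    (h : (2 ∣ n * (d - 1) ∧ 3 ≤ k) ∨ (4 ≤ k ∧ (3 ≤ d ∨ 9 ≤ n)) ∨ (n = 7 ∧ 5 ≤ k)) :
    ¬ InjAt K n d k i 1 := by
  by_cases he : 2 ∣ n * (d - 1)
  · exact not_inj_even hn hd (by omega) hi he
  · rcases h with h | h | h
    · exact absurd h.1 he
    · exact not_inj_odd hn hd h.1 hi he h.2
    · rcases Nat.lt_or_ge d 3 with hd3 | hd3
      · obtain rfl : d = 2 := by omega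
        obtain ⟨rfl, hk⟩ := h
        exact not_inj_seven_up hk hi
      · exact not_inj_odd hn hd (by omega) hi he (Or.inl hd3)

/-- the general theorem -/
theorem not_maxRank_all {n d k i : ℕ} (hi : i + 1 = (k - 1) * d + n * (d - 1) / 2)
    (h : (4 ≤ n ∧ 2 ≤ k ∧ ((2 ∣ n * (d - 1) ∧ 2 * (n - 1) ≤ (d - 1) * (k - 1)) ∨
        4 * (n - 1) ≤ (d - 2) * (k - 1))) ∨
      (5 ≤ n ∧ 2 ≤ d ∧ ((2 ∣ n * (d - 1) ∧ 3 ≤ k) ∨ (4 ≤ k ∧ (3 ≤ d ∨ 9 ≤ n)) ∨
        (n = 7 ∧ 5 ≤ k))))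
    {L : MvPolynomial (Fin n) K} (hL : L.IsHomogeneous 1) :
    ¬ MaxRank (powIdeal K n d k) L i := by
  rcases h with ⟨hn, hk, h⟩ | ⟨hn, hd, h⟩
  · exact not_maxRank hn hk hi h hL
  · intro hm
    rcases maxRank_test (by omega) hL hm with h1 | h1
    · exact not_inj_mid hn hd hi h h1
    · exact not_surj_mid (by omega) (by omega) (by omega) hi h1

end Pool.Agent.W5h40.Wlp
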