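import Pool.Agent.W5h40.Wlp.Basic

set_option autoImplicit false

namespace Pool.Agent.W5h40.Wlp

open Pool.Agent.Helper720.Pow
open Pool.Agent.Helper720.Level (allMon mem_allMon card_allMon)

/-- the number of `r ∈ [0, d) ^ N` with sum `j` -/
def cf (d : ℕ) : ℕ → ℤ → ℤ
  | 0, j => if j = 0 then 1 else 0
  | N + 1, j => ∑ r ∈ Finset.range d, cf d N (j - r)

lemma cf_zero (d : ℕ) (j : ℤ) : cf d 0 j = if j = 0 then 1 else 0 := rfl

lemma cf_succ (d N : ℕ) (j : ℤ) : cf d (N + 1) j = ∑ r ∈ Finset.range d, cf d N (j - r) := rfl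

lemma cf_nonneg (d N : ℕ) (j : ℤ) : 0 ≤ cf d N j := by
  induction N generalizing j with
  | zero => rw [cf_zero]; split_ifs <;> norm_num
  | succ N ih => rw [cf_succ]; exact Finset.sum_nonneg fun r _ => ih _

lemma cf_symm (d N : ℕ) (hd : 1 ≤ d) (j : ℤ) : cf d N (N * (d - 1) - j) = cf d N j := by
  induction N generalizing j with
  | zero => rw [cf_zero, cf_zero]; simp
  | succ N ih =>
    rw [cf_succ, cf_succ, ← Finset.sum_range_reflect]
    refine Finset.sum_congr rfl fun r hr => ?_
    rw [Finset.mem_range] at hr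
    rw [← ih (j - r)]
    congr 1
    have : ((d - 1 - r : ℕ) : ℤ) = d - 1 - r := by
      push_cast [Nat.cast_sub (show r ≤ d - 1 by omega), Nat.cast_sub hd]
      ring
    rw [this]
    push_cast
    ring

lemma cf_symm' {d N : ℕ} (hd : 1 ≤ d) {i j : ℤ} (h : i + j = N * (d - 1)) :
    cf d N i = cf d N j := by
  rw [← cf_symm d N hd j]
  congr 1
  linarith

/-- the first difference -/
def Df (d N : ℕ) (j : ℤ) : ℤ := cf d N j - cf d N (j - 1)

lemma Df_succ (d N : ℕ) (j : ℤ) : Df d (N + 1) j = cf d N j - cf d N (j - d) := by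
  unfold Df
  rw [cf_succ, cf_succ, ← Finset.sum_sub_distrib]
  have h := Finset.sum_range_sub' (fun r : ℕ => cf d N (j - r)) d
  have h2 : ∑ i ∈ Finset.range d, (cf d N (j - (i : ℤ)) - cf d N (j - 1 - (i : ℤ))) =
      ∑ i ∈ Finset.range d, (cf d N (j - (i : ℤ)) - cf d N (j - ((i + 1 : ℕ) : ℤ))) := by
    refine Finset.sum_congr rfl fun i _ => ?_
    congr 2
    push_cast
    ring
  rw [h2, h]
  simp

lemma cf_mono {d : ℕ} (hd : 1 ≤ d) (N : ℕ) {x y : ℤ} (hxy : x ≤ y)
    (hs : x + y ≤ N * (d - 1)) : cf d N x ≤ cf d N y := by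
  induction N generalizing x y with
  | zero =>
    rw [cf_zero, cf_zero]
    push_cast at hs
    rw [zero_mul] at hs
    by_cases hx : x = 0
    · have hy : y = 0 := by omega
      rw [if_pos hx, if_pos hy]
    · rw [if_neg hx]
      split_ifs <;> norm_num
  | succ N ih =>
    have hstep : ∀ z : ℤ, 2 * z + 1 ≤ ((N + 1 : ℕ) : ℤ) * (d - 1) →
        cf d (N + 1) z ≤ cf d (N + 1) (z + 1) := by
      intro z hz
      have h1 := Df_succ d N (z + 1)
      unfold Df at h1
      rw [add_sub_cancel_right] at h1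
      have h2 := ih (x := z + 1 - d) (y := z + 1) (by omega) (by
        push_cast at hz ⊢
        linarith)
      linarith
    have hchain : ∀ x y : ℤ, x ≤ y → 2 * y ≤ ((N + 1 : ℕ) : ℤ) * (d - 1) →
        cf d (N + 1) x ≤ cf d (N + 1) y := by
      intro x y hxy
      induction y, hxy using Int.leInduction with
      | base => intro _; exact le_rfl
      | succ y hy ihy =>
        intro hy2
        exact (ihy (by linarith)).trans (hstep y (by linarith))
    by_cases hy : 2 * y ≤ ((N + 1 : ℕ) : ℤ) * (d - 1)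
    · exact hchain x y hxy hy
    · have h1 : cf d (N + 1) y = cf d (N + 1) (((N + 1 : ℕ) : ℤ) * (d - 1) - y) :=
        cf_symm' hd (by ring)
      rw [h1]
      exact hchain _ _ (by linarith) (by linarith)

lemma Df_pair {d : ℕ} (hd : 1 ≤ d) (N : ℕ) {j j' : ℤ} (hjj : j' ≤ j)
    (hs : j + j' = N * (d - 1)) : Df d (N + 1) j ≤ Df d (N + 1) j' := by
  rw [Df_succ, Df_succ, cf_symm' hd hs]
  have h1 := cf_mono hd N (x := j' - d) (y := j - d) (by omega) (by
    have : (0 : ℤ) ≤ d := Int.natCast_nonneg d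
    linarith)
  linarith

lemma Df_two (d N : ℕ) (j : ℤ) : Df d (N + 2) j =
    ∑ r ∈ Finset.range d, cf d N (j - r) - ∑ r ∈ Finset.range d, cf d N (j - d - r) := by
  rw [Df_succ, cf_succ, cf_succ]

/-- summation by parts with the pairing condition -/
lemma key (A : ℕ → ℤ) (m : ℕ)
    (hp : ∀ t < m, t ≤ m - 1 - t → A t - A (t + 1) ≤ A (m - 1 - t) - A (m - 1 - t + 1)) :
    ((m : ℤ) + 1) * (A 0 - A m) ≤ 2 * ∑ t ∈ Finset.range m, (A t - A m) := by
  have h1 : ∀ m : ℕ, ∑ t ∈ Finset.range m, (A t - A m) =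
      ∑ t ∈ Finset.range m, ((t : ℤ) + 1) * (A t - A (t + 1)) := by
    intro m
    induction m with
    | zero => simp
    | succ m ih =>
      rw [Finset.sum_range_succ, Finset.sum_range_succ, ← ih]
      have h2 : ∑ t ∈ Finset.range m, (A t - A (m + 1)) =
          ∑ t ∈ Finset.range m, (A t - A m) + m * (A m - A (m + 1)) := by
        rw [Finset.sum_sub_distrib, Finset.sum_sub_distrib, Finset.sum_const, Finset.sum_const,
          Finset.card_range, nsmul_eq_mul, nsmul_eq_mul]
        ring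
      rw [h2]
      ring
  have h2 : A 0 - A m = ∑ t ∈ Finset.range m, (A t - A (t + 1)) :=
    (Finset.sum_range_sub' A m).symm
  have h3 : 0 ≤ ∑ t ∈ Finset.range m, (2 * (t : ℤ) + 1 - m) * (A t - A (t + 1)) := by
    have h4 : 2 * ∑ t ∈ Finset.range m, (2 * (t : ℤ) + 1 - m) * (A t - A (t + 1)) =
        ∑ t ∈ Finset.range m, (2 * (t : ℤ) + 1 - m) *
          ((A t - A (t + 1)) - (A (m - 1 - t) - A (m - 1 - t + 1))) := by
      have h5 := Finset.sum_range_reflect
        (fun t : ℕ => (2 * (t : ℤ) + 1 - m) * (A t - A (t + 1))) m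
      have h6 : ∑ t ∈ Finset.range m, (2 * (t : ℤ) + 1 - m) *
          (A (m - 1 - t) - A (m - 1 - t + 1)) =
          -∑ t ∈ Finset.range m, (2 * (t : ℤ) + 1 - m) * (A t - A (t + 1)) := by
        rw [← h5, ← Finset.sum_neg_distrib]
        refine Finset.sum_congr rfl fun t ht => ?_
        rw [Finset.mem_range] at ht
        have h6 : ((m - 1 - t : ℕ) : ℤ) = m - 1 - t := by
          rw [Nat.cast_sub (by omega), Nat.cast_sub (by omega)]
          simp
        simp only [h6]
        ring
      have h8 : ∑ t ∈ Finset.range m, (2 * (t : ℤ) + 1 - m) *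
          ((A t - A (t + 1)) - (A (m - 1 - t) - A (m - 1 - t + 1))) =
          ∑ t ∈ Finset.range m, (2 * (t : ℤ) + 1 - m) * (A t - A (t + 1)) -
          ∑ t ∈ Finset.range m, (2 * (t : ℤ) + 1 - m) *
            (A (m - 1 - t) - A (m - 1 - t + 1)) := by
        rw [← Finset.sum_sub_distrib]
        exact Finset.sum_congr rfl fun t _ => by ring
      rw [h8, h6]
      ring
    have h7 : 0 ≤ ∑ t ∈ Finset.range m, (2 * (t : ℤ) + 1 - m) *
          ((A t - A (t + 1)) - (A (m - 1 - t) - A (m - 1 - t + 1))) := by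
      refine Finset.sum_nonneg fun t ht => ?_
      rw [Finset.mem_range] at ht
      rcases le_total t (m - 1 - t) with h8 | h8
      · have h9 := hp t ht h8
        apply mul_nonneg_of_nonpos_of_nonpos
        · omega
        · linarith
      · have h9 := hp (m - 1 - t) (by omega) (by omega)
        rw [show m - 1 - (m - 1 - t) = t by omega] at h9
        apply mul_nonneg
        · omega
        · linarith
    linarith
  have h4 : 2 * ∑ t ∈ Finset.range m, (A t - A m) =
      ∑ t ∈ Finset.range m, (2 * (t : ℤ) + 1 - m) * (A t - A (t + 1)) + (m + 1) * (A 0 - A m) := by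
    rw [h1, h2, Finset.mul_sum, Finset.mul_sum, ← Finset.sum_add_distrib]
    refine Finset.sum_congr rfl fun t _ => ?_
    ring
  linarith

lemma sum_shift (A : ℕ → ℤ) (d : ℕ) :
    ∑ r ∈ Finset.range d, A r - ∑ r ∈ Finset.range d, A (r + 1) = A 0 - A d := by
  rw [← Finset.sum_sub_distrib]
  exact Finset.sum_range_sub' A d

/-- The even case: the number of the classes of weight `2 (d - 1)` against the invariants. -/
lemma ratio_even {d : ℕ} (hd : 1 ≤ d) (N : ℕ) {g : ℤ} (hg : 2 * g = ((N + 1 : ℕ) : ℤ) * (d - 1)) :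
    0 ≤ Df d (N + 3) (g + d - 1) ∧
      (d + 1) * Df d (N + 3) (g + d - 1) ≤ 2 * -Df d (N + 3) (g + d - 1 + d) := by
  obtain ⟨A, hA⟩ : ∃ A : ℕ → ℤ, A = fun s : ℕ => cf d (N + 1) (g + s) := ⟨_, rfl⟩
  have hAs : ∀ s : ℕ, A s = cf d (N + 1) (g - s) := by
    intro s
    rw [hA]
    exact cf_symm' hd (by rw [← hg]; ring)
  have h1 : Df d (N + 3) (g + d - 1) = A 0 - A d := by
    rw [Df_two, ← sum_shift A d]
    congr 1
    · rw [← Finset.sum_range_reflect]
      refine Finset.sum_congr rfl fun r hr => ?_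
      rw [Finset.mem_range] at hr
      rw [hA]
      simp only
      congr 1
      rw [Nat.cast_sub (by omega), Nat.cast_sub (by omega)]
      push_cast
      ring
    · refine Finset.sum_congr rfl fun r _ => ?_
      rw [hAs]
      congr 1
      push_cast
      ring
  have hsym : Df d (N + 3) (g + d - 1 + d) = -Df d (N + 3) g := by
    have h2 : ∀ j j' : ℤ, j + j' = 2 * (g + d - 1) → cf d (N + 3) j = cf d (N + 3) j' := by
      intro j j' h
      apply cf_symm' hd
      rw [h]
      push_cast at hg ⊢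
      linarith
    unfold Df
    rw [h2 (g + d - 1 + d) (g - 1) (by ring), h2 (g + d - 1 + d - 1) g (by ring)]
    ring
  have h3 : Df d (N + 3) g = ∑ r ∈ Finset.range d, (A r - A (d + r)) := by
    rw [Df_two, Finset.sum_sub_distrib]
    congr 1
    · exact Finset.sum_congr rfl fun r _ => (hAs r).symm
    · refine Finset.sum_congr rfl fun r _ => ?_
      rw [hAs]
      congr 1
      push_cast
      ring
  have hmono : ∀ s s' : ℕ, s ≤ s' → A s' ≤ A s := by
    intro s s' hss
    rw [hAs, hAs]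
    have : (s : ℤ) ≤ s' := by exact_mod_cast hss
    apply cf_mono hd
    · linarith
    · rw [← hg]
      have : (0 : ℤ) ≤ s := Int.natCast_nonneg s
      linarith
  have hkey := key A d (by
    intro t ht htt
    have h4 : ∀ s : ℕ, A s - A (s + 1) = Df d (N + 1) (g - s) := by
      intro s
      rw [hAs, hAs]
      unfold Df
      congr 2
      push_cast
      ring
    rw [h4, h4]
    apply Df_pair hd
    · have : (t : ℤ) ≤ ((d - 1 - t : ℕ) : ℤ) := by exact_mod_cast htt
      linarith
    · rw [Nat.cast_sub (by omega), Nat.cast_sub (by omega)]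
      push_cast at hg ⊢
      linarith)
  have h5 : ∑ t ∈ Finset.range d, (A t - A d) ≤ ∑ r ∈ Finset.range d, (A r - A (d + r)) := by
    refine Finset.sum_le_sum fun r _ => ?_
    have := hmono d (d + r) (by omega)
    linarith
  have h6 := hmono 0 d (by omega)
  rw [hsym, h1, h3]
  constructor
  · linarith
  · rw [neg_neg]
    linarith

/-- The odd case. -/
lemma ratio_odd {d : ℕ} (hd : 2 ≤ d) (N : ℕ) {g : ℤ}
    (hg : 2 * g + 1 = ((N + 1 : ℕ) : ℤ) * (d - 1)) :
    0 ≤ Df d (N + 3) (g + d - 1) ∧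
      (d + 2) * Df d (N + 3) (g + d - 1) ≤ 4 * -Df d (N + 3) (g + d - 1 + d) := by
  have hd1 : 1 ≤ d := by omega
  obtain ⟨m, rfl⟩ : ∃ m, d = m + 1 := ⟨d - 1, by omega⟩
  obtain ⟨A, hA⟩ : ∃ A : ℕ → ℤ, A = fun s : ℕ => cf (m + 1) (N + 1) (g + 1 + s) := ⟨_, rfl⟩
  have hAs : ∀ s : ℕ, A s = cf (m + 1) (N + 1) (g - s) := by
    intro s
    rw [hA]
    exact cf_symm' hd1 (by rw [← hg]; ring)
  have hA' : ∀ s : ℕ, A s = cf (m + 1) (N + 1) (g + 1 + s) := fun s => by rw [hA]
  have h1 : Df (m + 1) (N + 3) (g + (m + 1 : ℕ) - 1) = 2 * A 0 - A m - A (m + 1) := by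
    have e1 : ∑ r ∈ Finset.range (m + 1), cf (m + 1) (N + 1) (g + (m + 1 : ℕ) - 1 - r) =
        ∑ r ∈ Finset.range m, A r + A 0 := by
      have e2 : ∑ r ∈ Finset.range (m + 1), cf (m + 1) (N + 1) (g + (m + 1 : ℕ) - 1 - r) =
          ∑ r ∈ Finset.range (m + 1), cf (m + 1) (N + 1) (g + r) := by
        rw [← Finset.sum_range_reflect]
        refine Finset.sum_congr rfl fun r hr => ?_
        rw [Finset.mem_range] at hr
        congr 1
        rw [Nat.cast_sub (by omega), Nat.cast_sub (by omega)]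
        push_cast
        ring
      rw [e2, Finset.sum_range_succ']
      congr 1
      · refine Finset.sum_congr rfl fun r _ => ?_
        rw [hA']
        congr 1
        push_cast
        ring
      · rw [hAs]
        congr 1
    have e3 : ∑ r ∈ Finset.range (m + 1),
        cf (m + 1) (N + 1) (g + (m + 1 : ℕ) - 1 - (m + 1 : ℕ) - r) =
        ∑ r ∈ Finset.range m, A (r + 1) + A (m + 1) := by
      rw [← Finset.sum_range_succ (fun r => A (r + 1))]
      refine Finset.sum_congr rfl fun r _ => ?_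
      rw [hAs]
      congr 1
      push_cast
      ring
    rw [Df_two, e1, e3]
    have := sum_shift A m
    linarith
  have hsym : Df (m + 1) (N + 3) (g + (m + 1 : ℕ) - 1 + (m + 1 : ℕ)) =
      -Df (m + 1) (N + 3) (g + 1) := by
    have h2 : ∀ j j' : ℤ, j + j' = 2 * (g + m) + 1 →
        cf (m + 1) (N + 3) j = cf (m + 1) (N + 3) j' := by
      intro j j' h
      apply cf_symm' hd1
      rw [h]
      push_cast at hg ⊢
      linarith
    unfold Df
    rw [h2 (g + (m + 1 : ℕ) - 1 + (m + 1 : ℕ)) (g + 1 - 1) (by push_cast; ring),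
      h2 (g + (m + 1 : ℕ) - 1 + (m + 1 : ℕ) - 1) (g + 1) (by push_cast; ring)]
    ring
  have h3 : Df (m + 1) (N + 3) (g + 1) = A 0 + ∑ r ∈ Finset.range m, A r -
      (A m + ∑ r ∈ Finset.range m, A (m + 1 + r)) := by
    have e1 : ∑ r ∈ Finset.range (m + 1), cf (m + 1) (N + 1) (g + 1 - r) =
        ∑ r ∈ Finset.range m, A r + A 0 := by
      rw [Finset.sum_range_succ']
      congr 1
      · refine Finset.sum_congr rfl fun r _ => ?_
        rw [hAs]
        congr 1
        push_cast
        ring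
      · rw [hA']
        congr 1
    have e3 : ∑ r ∈ Finset.range (m + 1), cf (m + 1) (N + 1) (g + 1 - (m + 1 : ℕ) - r) =
        ∑ r ∈ Finset.range m, A (m + 1 + r) + A m := by
      rw [Finset.sum_range_succ']
      congr 1
      · refine Finset.sum_congr rfl fun r _ => ?_
        rw [hAs]
        congr 1
        push_cast
        ring
      · rw [hAs]
        congr 1
        push_cast
        ring
    rw [Df_two, e1, e3]
    ring
  have hmono : ∀ s s' : ℕ, s ≤ s' → A s' ≤ A s := by
    intro s s' hss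
    rw [hAs, hAs]
    have : (s : ℤ) ≤ s' := by exact_mod_cast hss
    apply cf_mono hd1
    · linarith
    · rw [← hg]
      have : (0 : ℤ) ≤ s := Int.natCast_nonneg s
      linarith
  have hkey := key A m (by
    intro t ht htt
    have h4 : ∀ s : ℕ, A s - A (s + 1) = Df (m + 1) (N + 1) (g - s) := by
      intro s
      rw [hAs, hAs]
      unfold Df
      congr 2
      push_cast
      ring
    rw [h4, h4]
    apply Df_pair hd1
    · have : (t : ℤ) ≤ ((m - 1 - t : ℕ) : ℤ) := by exact_mod_cast htt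
      linarith
    · rw [Nat.cast_sub (by omega), Nat.cast_sub (by omega)]
      push_cast at hg ⊢
      linarith)
  have h5 : ∑ r ∈ Finset.range m, A (m + 1 + r) ≤ m * A (m + 1) := by
    have : ∑ r ∈ Finset.range m, A (m + 1 + r) ≤ ∑ _r ∈ Finset.range m, A (m + 1) :=
      Finset.sum_le_sum fun r _ => hmono _ _ (by omega)
    rwa [Finset.sum_const, Finset.card_range, nsmul_eq_mul] at this
  have h6 : ∑ t ∈ Finset.range m, (A t - A m) = ∑ t ∈ Finset.range m, A t - m * A m := by
    rw [Finset.sum_sub_distrib, Finset.sum_const, Finset.card_range, nsmul_eq_mul]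
  have h7 := hmono 0 m (by omega)
  have h8 := hmono m (m + 1) (by omega)
  have hm : (1 : ℤ) ≤ m := by omega
  rw [hsym, h1, h3]
  rw [h6] at hkey
  constructor
  · linarith
  · rw [neg_neg]
    push_cast
    nlinarith [mul_nonneg (sub_nonneg.2 hm) (sub_nonneg.2 h8)]

end Pool.Agent.W5h40.Wlp
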