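import Pool.Agent.W5h40.Wlp.Basic

set_option autoImplicit false

open MvPolynomial

namespace Pool.Agent.W5h40.Wlp

open Pool.Agent.Helper720.Pow

variable {n : ℕ}

/-- the product of the differences of the variables along a list of edges -/
noncomputable def FL (K : Type*) [Field K] (n : ℕ) (L : List (Fin n × Fin n)) :
    MvPolynomial (Fin n) K :=
  (L.map fun p => X p.1 - X p.2).prod

variable {K : Type*} [Field K]

lemma FL_cons (p : Fin n × Fin n) (L : List (Fin n × Fin n)) :
    FL K n (p :: L) = (X p.1 - X p.2) * FL K n L := by
  unfold FL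
  rw [List.map_cons, List.prod_cons]

lemma FL_ne (L : List (Fin n × Fin n)) (h : ∀ p ∈ L, p.1 ≠ p.2) : FL K n L ≠ 0 := by
  unfold FL
  rw [Ne, List.prod_eq_zero_iff, List.mem_map]
  rintro ⟨p, hp, h0⟩
  exact h p hp (X_injective (sub_eq_zero.1 h0))

lemma FL_hom (L : List (Fin n × Fin n)) : (FL K n L).IsHomogeneous L.length := by
  induction L with
  | nil => exact isHomogeneous_one _ _
  | cons p L ih =>
    rw [FL_cons, List.length_cons, add_comm]
    exact ((isHomogeneous_X K p.1).sub (isHomogeneous_X K p.2)).mul ih

lemma sum_pderiv_X (a : Fin n) : ∑ c, pderiv c (X a : MvPolynomial (Fin n) K) = 1 := by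
  rw [Finset.sum_eq_single a]
  · exact pderiv_X_self a
  · intro b _ hb
    exact pderiv_X_of_ne (Ne.symm hb)
  · intro h
    exact absurd (Finset.mem_univ _) h

lemma FL_D (L : List (Fin n × Fin n)) : ∑ c, pderiv c (FL K n L) = 0 := by
  induction L with
  | nil =>
    refine Finset.sum_eq_zero fun c _ => ?_
    unfold FL
    rw [List.map_nil, List.prod_nil]
    exact pderiv_one
  | cons p L ih =>
    have h1 : ∀ c, pderiv c (FL K n (p :: L)) =
        (pderiv c (X p.1) - pderiv c (X p.2)) * FL K n L + (X p.1 - X p.2) * pderiv c (FL K n L) := by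
      intro c
      rw [FL_cons, pderiv_mul, map_sub]
    rw [Finset.sum_congr rfl fun c _ => h1 c, Finset.sum_add_distrib, ← Finset.sum_mul,
      ← Finset.mul_sum, ih, mul_zero, add_zero, Finset.sum_sub_distrib, sum_pderiv_X, sum_pderiv_X,
      sub_self, zero_mul]

lemma FL_supp {p : Fin n × Fin n} {L : List (Fin n × Fin n)} {m : Fin n →₀ ℕ}
    (hm : m ∈ (FL K n (p :: L)).support) :
    ∃ m' ∈ (FL K n L).support, m = Finsupp.single p.1 1 + m' ∨ m = Finsupp.single p.2 1 + m' := by
  classical
  rw [FL_cons, sub_mul] at hm
  rcases Finset.mem_union.1 (MvPolynomial.support_sub _ _ _ hm) with h | h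
  · rw [support_X_mul, Finset.mem_map] at h
    obtain ⟨m', hm', rfl⟩ := h
    exact ⟨m', hm', Or.inl rfl⟩
  · rw [support_X_mul, Finset.mem_map] at h
    obtain ⟨m', hm', rfl⟩ := h
    exact ⟨m', hm', Or.inr rfl⟩

/-- the degree of a vertex -/
def dg (L : List (Fin n × Fin n)) (c : Fin n) : ℕ := L.countP fun p => p.1 = c ∨ p.2 = c

lemma dg_append (L L' : List (Fin n × Fin n)) (c : Fin n) :
    dg (L ++ L') c = dg L c + dg L' c := List.countP_append

lemma dg_replicate (r : ℕ) (a b c : Fin n) :
    dg (List.replicate r (a, b)) c = if a = c ∨ b = c then r else 0 := by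
  unfold dg
  rw [List.countP_replicate]
  simp

lemma dg_eq_zero {L : List (Fin n × Fin n)} {c : Fin n} (h : ∀ p ∈ L, p.1 ≠ c ∧ p.2 ≠ c) :
    dg L c = 0 := by
  unfold dg
  rw [List.countP_eq_zero]
  intro p hp
  have := h p hp
  simp [this.1, this.2]

lemma supp_le {L : List (Fin n × Fin n)} (hL : ∀ p ∈ L, p.1 ≠ p.2) {m : Fin n →₀ ℕ}
    (hm : m ∈ (FL K n L).support) (c : Fin n) : m c ≤ dg L c := by
  induction L generalizing m with
  | nil =>
    unfold FL at hm
    rw [List.map_nil, List.prod_nil, mem_support_iff, coeff_one] at hm
    have : m = 0 := by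
      by_contra h
      rw [if_neg (fun h' => h h'.symm)] at hm
      exact hm rfl
    rw [this]
    exact Nat.zero_le _
  | cons p L ih =>
    obtain ⟨m', hm', h⟩ := FL_supp hm
    have h1 := ih (fun q hq => hL q (List.mem_cons_of_mem _ hq)) hm'
    have h2 : dg (p :: L) c = dg L c + if p.1 = c ∨ p.2 = c then 1 else 0 := by
      unfold dg
      rw [List.countP_cons]
      simp
    rw [h2]
    rcases h with h | h
    · rw [h, Finsupp.add_apply, Finsupp.single_apply]
      by_cases hc : p.1 = c
      · rw [if_pos hc, if_pos (Or.inl hc)]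
        omega
      · rw [if_neg hc]
        split_ifs <;> omega
    · rw [h, Finsupp.add_apply, Finsupp.single_apply]
      by_cases hc : p.2 = c
      · rw [if_pos hc, if_pos (Or.inr hc)]
        omega
      · rw [if_neg hc]
        split_ifs <;> omega

lemma supp_block {a b : Fin n} (hab : a ≠ b) (r : ℕ) {L : List (Fin n × Fin n)} {m : Fin n →₀ ℕ}
    (hm : m ∈ (FL K n (List.replicate r (a, b) ++ L)).support) :
    ∃ m' ∈ (FL K n L).support, m a + m b = r + (m' a + m' b) ∧
      ∀ c, c ≠ a → c ≠ b → m c = m' c := by
  induction r generalizing m with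
  | zero => exact ⟨m, hm, by omega, fun _ _ _ => rfl⟩
  | succ r ih =>
    rw [List.replicate_succ, List.cons_append] at hm
    obtain ⟨m₁, hm₁, h⟩ := FL_supp hm
    obtain ⟨m', hm', h1, h2⟩ := ih hm₁
    refine ⟨m', hm', ?_, fun c hca hcb => ?_⟩
    · rcases h with h | h
      · rw [h, Finsupp.add_apply, Finsupp.add_apply, Finsupp.single_eq_same,
          Finsupp.single_apply, if_neg hab]
        omega
      · rw [h, Finsupp.add_apply, Finsupp.add_apply, Finsupp.single_eq_same,
          Finsupp.single_apply, if_neg (Ne.symm hab)]
        omega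
    · rw [← h2 c hca hcb]
      rcases h with h | h
      · rw [h, Finsupp.add_apply, Finsupp.single_apply, if_neg (Ne.symm hca), zero_add]
      · rw [h, Finsupp.add_apply, Finsupp.single_apply, if_neg (Ne.symm hcb), zero_add]

lemma exists_edges (n d : ℕ) : ∀ N, 2 ≤ N → ∀ s, s + N ≤ n →
    ∃ L : List (Fin n × Fin n), (∀ p ∈ L, p.1 ≠ p.2 ∧ s ≤ (p.1 : ℕ) ∧ s ≤ (p.2 : ℕ) ∧
      (p.1 : ℕ) < s + N ∧ (p.2 : ℕ) < s + N) ∧ (∀ c, dg L c ≤ d - 1) ∧
      L.length = N * (d - 1) / 2 := by
  intro N
  induction N using Nat.strong_induction_on with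
  | _ N ih =>
    intro hN s hs
    rcases (by omega : N = 2 ∨ N = 3 ∨ 4 ≤ N) with h2 | h3 | h4
    · subst h2
      refine ⟨List.replicate (d - 1) (⟨s, by omega⟩, ⟨s + 1, by omega⟩), ?_, ?_, ?_⟩
      · intro p hp
        rw [List.eq_of_mem_replicate hp]
        refine ⟨?_, ?_, ?_, ?_, ?_⟩
        · intro h
          have := congrArg Fin.val h
          simp at this
        all_goals simp
      · intro c
        rw [dg_replicate]
        split_ifs <;> omega
      · rw [List.length_replicate]
        omega
    · subst h3
      obtain ⟨e, he⟩ : ∃ e, e = (d - 1) / 2 := ⟨_, rfl⟩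
      set a : Fin n := ⟨s, by omega⟩ with ha
      set b : Fin n := ⟨s + 1, by omega⟩ with hb
      set c' : Fin n := ⟨s + 2, by omega⟩ with hc
      have hab : a ≠ b := by
        intro h
        have := congrArg Fin.val h
        simp [ha, hb] at this
      have hac : a ≠ c' := by
        intro h
        have := congrArg Fin.val h
        simp [ha, hc] at this
      have hbc : b ≠ c' := by
        intro h
        have := congrArg Fin.val h
        simp [hb, hc] at this
      refine ⟨List.replicate e (a, b) ++ (List.replicate e (b, c') ++ (List.replicate e (a, c') ++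
        List.replicate ((d - 1) % 2) (a, b))), ?_, ?_, ?_⟩
      · intro p hp
        rw [List.mem_append, List.mem_append, List.mem_append] at hp
        have hp' : p = (a, b) ∨ p = (b, c') ∨ p = (a, c') := by
          rcases hp with h | h | h | h
          · exact Or.inl (List.eq_of_mem_replicate h)
          · exact Or.inr (Or.inl (List.eq_of_mem_replicate h))
          · exact Or.inr (Or.inr (List.eq_of_mem_replicate h))
          · exact Or.inl (List.eq_of_mem_replicate h)
        rcases hp' with h | h | h
        · rw [h]
          exact ⟨hab, by simp [ha], by simp [hb], by simp [ha], by simp [hb]⟩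
        · rw [h]
          exact ⟨hbc, by simp [hb], by simp [hc], by simp [hb], by simp [hc]⟩
        · rw [h]
          exact ⟨hac, by simp [ha], by simp [hc], by simp [ha], by simp [hc]⟩
      · intro c
        rw [dg_append, dg_append, dg_append, dg_replicate, dg_replicate, dg_replicate,
          dg_replicate]
        by_cases h1 : a = c
        · have h2 : b ≠ c := fun h => hab (h1.trans h.symm)
          have h3 : c' ≠ c := fun h => hac (h1.trans h.symm)
          simp only [h1, h2, h3, true_or, if_true, or_self, if_false, or_false]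
          omega
        · by_cases h2 : b = c
          · have h3 : c' ≠ c := fun h => hbc (h2.trans h.symm)
            simp only [h1, h2, h3, or_true, true_or, if_true, or_self, if_false, or_false,
              false_or]
            omega
          · simp only [h1, h2, or_self, if_false, false_or]
            split_ifs <;> omega
      · rw [List.length_append, List.length_append, List.length_append, List.length_replicate,
          List.length_replicate, List.length_replicate, List.length_replicate]
        omega
    · obtain ⟨L, hL1, hL2, hL3⟩ := ih (N - 2) (by omega) (by omega) s (by omega)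
      set a : Fin n := ⟨s + (N - 2), by omega⟩ with ha
      set b : Fin n := ⟨s + (N - 2) + 1, by omega⟩ with hb
      refine ⟨L ++ List.replicate (d - 1) (a, b), ?_, ?_, ?_⟩
      · intro p hp
        rcases List.mem_append.1 hp with h | h
        · obtain ⟨h1, h2, h3, h4, h5⟩ := hL1 p h
          exact ⟨h1, h2, h3, by omega, by omega⟩
        · rw [List.eq_of_mem_replicate h]
          refine ⟨?_, by simp only [ha]; omega, by simp only [hb]; omega,
            by simp only [ha]; omega, by simp only [hb]; omega⟩
          intro h'
          have := congrArg Fin.val h'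
          simp [ha, hb] at this
      · intro c
        rw [dg_append, dg_replicate]
        by_cases hc : a = c ∨ b = c
        · rw [if_pos hc, dg_eq_zero, zero_add]
          intro p hp
          obtain ⟨h1, h2, h3, h4, h5⟩ := hL1 p hp
          have hcv : (c : ℕ) = s + (N - 2) ∨ (c : ℕ) = s + (N - 2) + 1 := by
            rcases hc with h | h
            · left; rw [← h]
            · right; rw [← h]
          constructor
          · rintro rfl
            omega
          · rintro rfl
            omega
        · rw [if_neg hc, add_zero]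
          exact hL2 c
      · rw [List.length_append, List.length_replicate, hL3]
        have : N * (d - 1) = (N - 2) * (d - 1) + 2 * (d - 1) := by
          rw [← add_mul]
          congr 1
          omega
        omega

/-- A translation invariant polynomial in the inverse system, in the middle of the last block. -/
lemma exists_F (hn : 4 ≤ n) {d k : ℕ} (hd : 1 ≤ d) (hk : 1 ≤ k) :
    ∃ F : MvPolynomial (Fin n) K, F ≠ 0 ∧ F.IsHomogeneous ((k - 1) * d + n * (d - 1) / 2) ∧
      ∑ c, pderiv c F = 0 ∧ ∀ m ∈ F.support, fl d m < k := by
  classical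
  obtain ⟨L, hL1, hL2, hL3⟩ := exists_edges n d (n - 2) (by omega) 2 (by omega)
  set a : Fin n := ⟨0, by omega⟩ with ha
  set b : Fin n := ⟨1, by omega⟩ with hb
  have hab : a ≠ b := by
    intro h
    have := congrArg Fin.val h
    simp [ha, hb] at this
  have hall : ∀ p ∈ List.replicate (k * d - 1) (a, b) ++ L, p.1 ≠ p.2 := by
    intro p hp
    rcases List.mem_append.1 hp with h | h
    · rw [List.eq_of_mem_replicate h]
      exact hab
    · exact (hL1 p h).1
  refine ⟨FL K n (List.replicate (k * d - 1) (a, b) ++ L), FL_ne _ hall, ?_, FL_D _, ?_⟩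
  · have h1 := FL_hom (K := K) (List.replicate (k * d - 1) (a, b) ++ L)
    rw [List.length_append, List.length_replicate, hL3] at h1
    have h2 : k * d - 1 + (n - 2) * (d - 1) / 2 = (k - 1) * d + n * (d - 1) / 2 := by
      have h3 : n * (d - 1) = (n - 2) * (d - 1) + 2 * (d - 1) := by
        rw [← add_mul]
        congr 1
        omega
      have h4 : k * d = (k - 1) * d + d := by
        conv_lhs => rw [show k = (k - 1) + 1 by omega]
        ring
      omega
    rwa [h2] at h1
  · intro m hm
    obtain ⟨m', hm', h1, h2⟩ := supp_block hab _ hm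
    have h3 := supp_le (fun p hp => (hL1 p hp).1) hm'
    have ha0 : m' a = 0 := by
      have := h3 a
      rw [dg_eq_zero] at this
      · omega
      · intro p hp
        obtain ⟨_, h5, h6, _, _⟩ := hL1 p hp
        constructor
        · rintro h
          rw [h] at h5
          simp [ha] at h5
        · rintro h
          rw [h] at h6
          simp [ha] at h6
    have hb0 : m' b = 0 := by
      have := h3 b
      rw [dg_eq_zero] at this
      · omega
      · intro p hp
        obtain ⟨_, h5, h6, _, _⟩ := hL1 p hp
        constructor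
        · rintro h
          rw [h] at h5
          simp [hb] at h5
        · rintro h
          rw [h] at h6
          simp [hb] at h6
    unfold fl
    rw [← Finset.add_sum_erase _ _ (Finset.mem_univ a),
      ← Finset.add_sum_erase _ _ (Finset.mem_erase.2 ⟨hab.symm, Finset.mem_univ b⟩),
      Finset.sum_eq_zero (s := (Finset.univ.erase a).erase b), add_zero]
    · have h4 : m a / d + m b / d ≤ (m a + m b) / d := Nat.div_add_div_le_add_div
      rw [h1, ha0, hb0, add_zero, add_zero] at h4
      have h5 : (k * d - 1) / d < k := by
        rw [Nat.div_lt_iff_lt_mul (by omega)]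
        have : 1 ≤ k * d := Nat.mul_pos hk hd
        omega
      omega
    · intro c hc
      rw [h2 c (Finset.ne_of_mem_erase (Finset.mem_of_mem_erase hc)) (Finset.ne_of_mem_erase hc)]
      have h4 := h3 c
      have h5 := hL2 c
      exact Nat.div_eq_of_lt (by omega)

/-- Surjectivity fails in the middle of the last block. -/
lemma not_surj_mid [CharZero K] (hn : 4 ≤ n) {d k i : ℕ} (hd : 1 ≤ d) (hk : 1 ≤ k)
    (hi : i + 1 = (k - 1) * d + n * (d - 1) / 2) : ¬ SurjAt K n d k i 1 := by
  obtain ⟨F, hF, hhom, hD, hfl⟩ := exists_F (K := K) hn hd hk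
  rw [← hi] at hhom
  exact not_surj_of_dual hd F hF hhom hD hfl

end Pool.Agent.W5h40.Wlp
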