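import Pool.Agent.W5h40.Wlp.Count

set_option autoImplicit false

namespace Pool.Agent.W5h40.Wlp

open Pool.Agent.Helper720.Pow
open Pool.Agent.Helper720.Level (allMon mem_allMon card_allMon)

lemma count_box (d N : ℕ) (j : ℤ) :
    (((Finset.univ : Finset (Fin N → Fin d)).filter
      fun r => ∑ c, ((r c : ℕ) : ℤ) = j).card : ℤ) = cf d N j := by
  induction N generalizing j with
  | zero =>
    rw [cf_zero]
    by_cases h : j = 0
    · rw [if_pos h, Finset.filter_true_of_mem]
      · simp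
      · intro r _
        simp [h]
    · rw [if_neg h, Finset.filter_false_of_mem]
      · simp
      · intro r _
        simpa using Ne.symm h
  | succ N ih =>
    rw [cf_succ, Finset.card_filter]
    push_cast
    rw [← (Fin.consEquiv fun _ : Fin (N + 1) => Fin d).sum_comp, Fintype.sum_prod_type,
      ← Fin.sum_univ_eq_sum_range (fun r => cf d N (j - (r : ℤ))) d]
    refine Finset.sum_congr rfl fun x _ => ?_
    rw [← ih, Finset.card_filter]
    push_cast
    refine Finset.sum_congr rfl fun r _ => ?_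
    have h1 : (∑ c : Fin (N + 1), ((((Fin.consEquiv fun _ : Fin (N + 1) => Fin d) (x, r)) c : ℕ) : ℤ)
        = j) ↔ (∑ c : Fin N, ((r c : ℕ) : ℤ) = j - (x : ℕ)) := by
      rw [Fin.sum_univ_succ]
      simp only [Fin.consEquiv_apply, Fin.cons_zero, Fin.cons_succ]
      constructor <;> intro h <;> linarith
    exact if_congr h1 rfl rfl

variable {n : ℕ}

/-- the vector of the floors -/
noncomputable def uv (d : ℕ) (m : Fin n →₀ ℕ) : Fin n →₀ ℕ :=
  Finsupp.equivFunOnFinite.symm fun c => m c / d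

lemma uv_apply (d : ℕ) (m : Fin n →₀ ℕ) (c : Fin n) : uv d m c = m c / d := rfl

lemma uv_degree (d : ℕ) (m : Fin n →₀ ℕ) : (uv d m).degree = fl d m := by
  rw [Finsupp.degree_eq_sum]
  rfl

lemma count_fiber {d : ℕ} (hd : 1 ≤ d) (i : ℕ) (u : Fin n →₀ ℕ) :
    (((allMon n i).filter fun m => uv d m = u).card : ℤ) = cf d n (i - d * u.degree) := by
  rw [← count_box]
  congr 1
  refine Finset.card_bij' (fun m _ => fun c => (⟨m c % d, Nat.mod_lt _ (by omega)⟩ : Fin d))
    (fun r _ => Finsupp.equivFunOnFinite.symm fun c => d * u c + r c) ?_ ?_ ?_ ?_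
  · intro m hm
    rw [Finset.mem_filter, mem_allMon] at hm
    rw [Finset.mem_filter]
    refine ⟨Finset.mem_univ _, ?_⟩
    simp only
    rw [← hm.1, ← hm.2, Finsupp.degree_eq_sum, Finsupp.degree_eq_sum]
    push_cast
    rw [Finset.mul_sum, ← Finset.sum_sub_distrib]
    refine Finset.sum_congr rfl fun c _ => ?_
    rw [uv_apply]
    have := Nat.mod_add_div (m c) d
    have h2 : ((m c % d : ℕ) : ℤ) + d * ((m c / d : ℕ) : ℤ) = (m c : ℤ) := by exact_mod_cast this
    push_cast at h2 ⊢
    linarith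
  · intro r hr
    rw [Finset.mem_filter] at hr
    rw [Finset.mem_filter, mem_allMon]
    constructor
    · rw [Finsupp.degree_eq_sum]
      have h1 := hr.2
      have h2 : ((∑ c, (d * u c + (r c : ℕ)) : ℕ) : ℤ) = i := by
        push_cast
        rw [Finset.sum_add_distrib, h1, Finsupp.degree_eq_sum, ← Finset.mul_sum]
        push_cast
        ring
      exact_mod_cast h2
    · ext c
      rw [uv_apply]
      change (d * u c + (r c : ℕ)) / d = u c
      rw [Nat.mul_add_div (by omega), Nat.div_eq_of_lt (r c).2, add_zero]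
  · intro m hm
    rw [Finset.mem_filter] at hm
    ext c
    change d * u c + m c % d = m c
    rw [← hm.2, uv_apply]
    exact Nat.div_add_mod (m c) d
  · intro r hr
    funext c
    apply Fin.ext
    change (d * u c + (r c : ℕ)) % d = r c
    rw [Nat.mul_add_mod, Nat.mod_eq_of_lt (r c).2]

/-- the Hilbert function -/
lemma count_Bs {d : ℕ} (hd : 1 ≤ d) (k i : ℕ) :
    ((Bs n d k i).card : ℤ) =
      ∑ q ∈ Finset.range k, ((allMon n q).card : ℤ) * cf d n (i - d * q) := by
  have h1 : (Bs n d k i).card =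
      ∑ q ∈ Finset.range k, ((Bs n d k i).filter fun m => fl d m = q).card :=
    Finset.card_eq_sum_card_fiberwise fun m hm => by
      have := (mem_Bs.1 hm).2
      simpa using this
  rw [h1]
  push_cast
  refine Finset.sum_congr rfl fun q hq => ?_
  rw [Finset.mem_range] at hq
  have h2 : ((Bs n d k i).filter fun m => fl d m = q) = (allMon n i).filter fun m => fl d m = q := by
    ext m
    rw [Finset.mem_filter, Finset.mem_filter, mem_Bs, mem_allMon]
    constructor
    · rintro ⟨⟨h1, _⟩, h3⟩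
      exact ⟨h1, h3⟩
    · rintro ⟨h1, h3⟩
      exact ⟨⟨h1, by omega⟩, h3⟩
  have h3 : ((allMon n i).filter fun m => fl d m = q).card =
      ∑ u ∈ allMon n q, (((allMon n i).filter fun m => fl d m = q).filter
        fun m => uv d m = u).card :=
    Finset.card_eq_sum_card_fiberwise fun m hm => by
      have h4 : m ∈ (allMon n i).filter fun m => fl d m = q := hm
      rw [Finset.mem_filter] at h4
      have h5 : uv d m ∈ allMon n q := by
        rw [mem_allMon, uv_degree]
        exact h4.2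
      exact h5
  rw [h2, h3]
  push_cast
  have h4 : ∀ u ∈ allMon n q, ((((allMon n i).filter fun m => fl d m = q).filter
        fun m => uv d m = u).card : ℤ) = cf d n (i - d * q) := by
    intro u hu
    rw [mem_allMon] at hu
    rw [← hu, ← count_fiber hd]
    congr 2
    ext m
    rw [Finset.mem_filter, Finset.mem_filter, Finset.mem_filter]
    constructor
    · rintro ⟨⟨h1, _⟩, h3⟩
      exact ⟨h1, h3⟩
    · rintro ⟨h1, h3⟩
      refine ⟨⟨h1, ?_⟩, h3⟩
      rw [← h3, uv_degree]
  rw [Finset.sum_congr rfl h4, Finset.sum_const, nsmul_eq_mul]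

lemma Df_nonpos {d N : ℕ} (hd : 1 ≤ d) {j : ℤ} (hj : (N : ℤ) * (d - 1) + 1 ≤ 2 * j) :
    Df d N j ≤ 0 := by
  unfold Df
  rw [cf_symm' (i := j) (j := N * (d - 1) - j) hd (by ring),
    cf_symm' (i := j - 1) (j := N * (d - 1) - j + 1) hd (by ring)]
  have := cf_mono hd N (x := N * (d - 1) - j) (y := N * (d - 1) - j + 1) (by linarith)
    (by linarith)
  linarith

lemma card_ratio (hn : 1 ≤ n) (k : ℕ) :
    ((k : ℤ) + 1) * ((allMon n (k + 1)).card : ℤ) = (n + k) * ((allMon n k).card : ℤ) := by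
  rw [card_allMon, card_allMon]
  have h := Nat.add_one_mul_choose_eq (n + k - 1) k
  rw [show n + k - 1 + 1 = n + k by omega] at h
  rw [show n + (k + 1) - 1 = n + k by omega]
  have h4 : (((n + k : ℕ)) : ℤ) * ((n + k - 1).choose k : ℤ) =
      ((n + k).choose (k + 1) : ℤ) * ((k + 1 : ℕ) : ℤ) := by
    exact_mod_cast h
  push_cast at h4
  linarith

lemma card_le_of_ratio (hn : 1 ≤ n) {d : ℕ} (hd : 1 ≤ d) (k i : ℕ) (e : ℤ)
    (hi : (i : ℤ) + 1 = (k + 1) * d + e) (he : (n : ℤ) * (d - 1) ≤ 2 * e + 1)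
    (h0 : 0 ≤ Df d n e) (r₁ r₂ : ℤ) (hr₂ : 0 < r₂) (h1 : r₁ * Df d n e ≤ r₂ * -Df d n (e + d))
    (h2 : r₂ * (n + k) ≤ r₁ * (k + 1)) :
    (Bs n d (k + 2) (i + 1)).card ≤ (Bs n d (k + 2) i).card := by
  have h3 : ((Bs n d (k + 2) (i + 1)).card : ℤ) ≤ ((Bs n d (k + 2) i).card : ℤ) := by
    rw [count_Bs hd, count_Bs hd]
    have h4 : ∑ q ∈ Finset.range (k + 2), ((allMon n q).card : ℤ) *
        cf d n ((i + 1 : ℕ) - d * q) - ∑ q ∈ Finset.range (k + 2), ((allMon n q).card : ℤ) *
        cf d n (i - d * q) = ∑ q ∈ Finset.range (k + 2), ((allMon n q).card : ℤ) *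
        Df d n (e + (k + 1 - q) * d) := by
      rw [← Finset.sum_sub_distrib]
      refine Finset.sum_congr rfl fun q _ => ?_
      unfold Df
      rw [← mul_sub]
      congr 3
      · push_cast
        linarith
      · linarith
    have h5 : ∑ q ∈ Finset.range (k + 2), ((allMon n q).card : ℤ) *
        Df d n (e + (k + 1 - q) * d) ≤ 0 := by
      rw [Finset.sum_range_succ, Finset.sum_range_succ]
      have h6 : ∑ q ∈ Finset.range k, ((allMon n q).card : ℤ) *
          Df d n (e + (k + 1 - q) * d) ≤ 0 := by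
        refine Finset.sum_nonpos fun q hq => ?_
        rw [Finset.mem_range] at hq
        apply mul_nonpos_of_nonneg_of_nonpos (Int.natCast_nonneg _)
        apply Df_nonpos hd
        have h7 : (q : ℤ) + 1 ≤ k := by exact_mod_cast hq
        have h8 : (1 : ℤ) ≤ d := by exact_mod_cast hd
        nlinarith
      have h7 : ((allMon n k).card : ℤ) * Df d n (e + (k + 1 - k) * d) +
          ((allMon n (k + 1)).card : ℤ) * Df d n (e + (k + 1 - (k + 1 : ℕ)) * d) ≤ 0 := by
        rw [show e + ((k : ℤ) + 1 - k) * d = e + d by ring,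
          show e + ((k : ℤ) + 1 - (k + 1 : ℕ)) * d = e by push_cast; ring]
        have h8 := card_ratio hn k
        obtain ⟨a, ha⟩ : ∃ a : ℤ, a = ((allMon n k).card : ℤ) := ⟨_, rfl⟩
        obtain ⟨b, hb⟩ : ∃ b : ℤ, b = ((allMon n (k + 1)).card : ℤ) := ⟨_, rfl⟩
        have ha0 : 0 ≤ a := by rw [ha]; exact Int.natCast_nonneg _
        rw [← ha, ← hb] at h8 ⊢
        have hk : (0 : ℤ) < (k : ℤ) + 1 := by positivity
        have h9 : r₂ * ((k : ℤ) + 1) * (a * Df d n (e + d) + b * Df d n e) ≤ 0 := by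
          have e1 : r₂ * ((k : ℤ) + 1) * (a * Df d n (e + d) + b * Df d n e) =
              -((k + 1) * a * (r₂ * -Df d n (e + d))) + (r₂ * (n + k)) * (a * Df d n e) := by
            linear_combination (r₂ * Df d n e) * h8
          have e2 : (r₂ * (n + k)) * (a * Df d n e) ≤ (r₁ * (k + 1)) * (a * Df d n e) :=
            mul_le_mul_of_nonneg_right h2 (mul_nonneg ha0 h0)
          have e3 : ((k : ℤ) + 1) * a * (r₁ * Df d n e) ≤ (k + 1) * a * (r₂ * -Df d n (e + d)) :=
            mul_le_mul_of_nonneg_left h1 (mul_nonneg hk.le ha0)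
          rw [e1]
          linarith
        have h10 : 0 < r₂ * ((k : ℤ) + 1) := mul_pos hr₂ hk
        by_contra hcon
        push Not at hcon
        exact absurd h9 (not_le.2 (mul_pos h10 hcon))
      linarith
    linarith
  exact_mod_cast h3

/-- The Hilbert function does not increase to the middle of the last block. -/
lemma card_le_mid (hn : 3 ≤ n) {d k i : ℕ} (hk : 2 ≤ k)
    (hi : i + 1 = (k - 1) * d + n * (d - 1) / 2)
    (h : (2 ∣ n * (d - 1) ∧ 2 * (n - 1) ≤ (d - 1) * (k - 1)) ∨ 4 * (n - 1) ≤ (d - 2) * (k - 1)) :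
    (Bs n d k (i + 1)).card ≤ (Bs n d k i).card := by
  have hd2 : 2 ≤ d := by
    by_contra hd
    have h1 : (d - 1) = 0 := by omega
    have h2 : (d - 2) = 0 := by omega
    rw [h1, h2, zero_mul] at h
    omega
  have hd : 1 ≤ d := by omega
  obtain ⟨N, rfl⟩ : ∃ N, n = N + 3 := ⟨n - 3, by omega⟩
  obtain ⟨l, rfl⟩ : ∃ l, k = l + 2 := ⟨k - 2, by omega⟩
  obtain ⟨δ, rfl⟩ : ∃ δ, d = δ + 2 := ⟨d - 2, by omega⟩
  rw [show l + 2 - 1 = l + 1 by omega, show δ + 2 - 1 = δ + 1 by omega] at hi h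
  rw [show δ + 2 - 2 = δ by omega, show N + 3 - 1 = N + 2 by omega] at h
  rcases Nat.even_or_odd' ((N + 3) * (δ + 1)) with ⟨e, he | he⟩
  · -- even case
    have h2 : 2 * (N + 2) ≤ (δ + 1) * (l + 1) := by
      rcases h with ⟨_, h⟩ | h
      · exact h
      · nlinarith
    have hr := ratio_even (d := δ + 2) hd N (g := (e : ℤ) - δ - 1) (by
      have : ((N + 3 : ℕ) : ℤ) * ((δ + 1 : ℕ) : ℤ) = 2 * e := by exact_mod_cast he
      push_cast at this ⊢
      linarith)
    rw [show (e : ℤ) - δ - 1 + ((δ + 2 : ℕ) : ℤ) - 1 = e by push_cast; ring] at hr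
    refine card_le_of_ratio (by omega) hd l i e ?_ ?_ hr.1 (((δ + 2 : ℕ) : ℤ) + 1) 2 (by norm_num)
      hr.2 ?_
    · have h3 : i + 1 = (l + 1) * (δ + 2) + e := by
        rw [hi, he]
        omega
      exact_mod_cast h3
    · have : ((N + 3 : ℕ) : ℤ) * ((δ + 1 : ℕ) : ℤ) = 2 * e := by exact_mod_cast he
      push_cast at this ⊢
      linarith
    · have h3 : (2 : ℤ) * (N + 2) ≤ (δ + 1) * (l + 1) := by exact_mod_cast h2
      push_cast
      nlinarith
  · have h2 : 4 * (N + 2) ≤ δ * (l + 1) := by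
      rcases h with ⟨h, _⟩ | h
      · omega
      · exact h
    have hr := ratio_odd (d := δ + 2) (by omega) N (g := (e : ℤ) - δ - 1) (by
      have : ((N + 3 : ℕ) : ℤ) * ((δ + 1 : ℕ) : ℤ) = 2 * e + 1 := by exact_mod_cast he
      push_cast at this ⊢
      linarith)
    rw [show (e : ℤ) - δ - 1 + ((δ + 2 : ℕ) : ℤ) - 1 = e by push_cast; ring] at hr
    refine card_le_of_ratio (by omega) hd l i e ?_ ?_ hr.1 (((δ + 2 : ℕ) : ℤ) + 2) 4 (by norm_num)
      hr.2 ?_
    · have h3 : i + 1 = (l + 1) * (δ + 2) + e := by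
        rw [hi, he]
        omega
      exact_mod_cast h3
    · have : ((N + 3 : ℕ) : ℤ) * ((δ + 1 : ℕ) : ℤ) = 2 * e + 1 := by exact_mod_cast he
      push_cast at this ⊢
      linarith
    · have h3 : (4 : ℤ) * (N + 2) ≤ δ * (l + 1) := by exact_mod_cast h2
      push_cast
      nlinarith

end Pool.Agent.W5h40.Wlp
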