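import Pool.Agent.W5h40.Wlp.Func
import Pool.Agent.W5h40.Wlp.Hilb

set_option autoImplicit false

open MvPolynomial

namespace Pool.Agent.W5h40.Wlp

open Pool.Agent.Helper720.Pow
open Pool.Agent.Helper720.Level (lin exists_lin lin_homogeneous)

variable {K : Type*} [Field K] {n : ℕ}

/-- Multiplication by `L` from degree `i` to degree `i + 1` of the graded algebra `S / J`
is injective or surjective. -/
def MaxRank (J : Ideal (MvPolynomial (Fin n) K)) (L : MvPolynomial (Fin n) K) (i : ℕ) : Prop :=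
  (∀ f : MvPolynomial (Fin n) K, f.IsHomogeneous i → L * f ∈ J → f ∈ J) ∨
  (∀ g : MvPolynomial (Fin n) K, g.IsHomogeneous (i + 1) →
    ∃ f : MvPolynomial (Fin n) K, f.IsHomogeneous i ∧ g - L * f ∈ J)

lemma maxRank_test {d k i : ℕ} (hd : 1 ≤ d) {L : MvPolynomial (Fin n) K}
    (hL : L.IsHomogeneous 1) (h : MaxRank (powIdeal K n d k) L i) :
    InjAt K n d k i 1 ∨ SurjAt K n d k i 1 := by
  obtain ⟨a, rfl⟩ := exists_lin hL
  rcases h with h | h
  · left
    apply inj_semi hd a
    intro f hf hJ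
    rw [pow_one] at hJ
    exact h f hf hJ
  · right
    apply surj_semi hd a
    intro g hg
    simp only [pow_one]
    exact h g hg

/-- the general theorem -/
theorem not_maxRank [CharZero K] (hn : 4 ≤ n) {d k i : ℕ} (hk : 2 ≤ k)
    (hi : i + 1 = (k - 1) * d + n * (d - 1) / 2)
    (h : (2 ∣ n * (d - 1) ∧ 2 * (n - 1) ≤ (d - 1) * (k - 1)) ∨ 4 * (n - 1) ≤ (d - 2) * (k - 1))
    {L : MvPolynomial (Fin n) K} (hL : L.IsHomogeneous 1) :
    ¬ MaxRank (powIdeal K n d k) L i := by
  have hd : 1 ≤ d := by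
    by_contra hd
    have h1 : (d - 1) = 0 := by omega
    have h2 : (d - 2) = 0 := by omega
    rw [h1, h2, zero_mul] at h
    omega
  intro hm
  have hns : ¬ SurjAt K n d k i 1 := not_surj_mid hn hd (by omega) hi
  rcases maxRank_test hd hL hm with h1 | h1
  · exact hns (surj_of_inj hd h1 (card_le_mid (by omega) hk hi h))
  · exact hns h1

end Pool.Agent.W5h40.Wlp
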