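import Pool.Agent.W5h40.Wlp.Basic

set_option autoImplicit false

open MvPolynomial

namespace Pool.Agent.W5h40.Wlp

open Pool.Agent.Helper720.Pow
open Pool.Agent.Helper720.Level (allMon mem_allMon)

variable {K : Type*} [Field K] {n : ℕ}

open Classical in
/-- the types of the monomials of degree `i` -/
noncomputable def Th {α : Type*} (τ : (Fin n →₀ ℕ) → α) (d k i : ℕ) : Finset α :=
  (Bs n d k i).image τ

lemma mem_Th {α : Type*} {τ : (Fin n →₀ ℕ) → α} {d k i : ℕ} {θ : α} :
    θ ∈ Th τ d k i ↔ ∃ m ∈ Bs n d k i, τ m = θ := by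
  classical
  unfold Th
  rw [Finset.mem_image]

lemma sub_mem_Bs {d k i : ℕ} {w : Fin n →₀ ℕ} (hw : w ∈ Bs n d k (i + 1)) {c : Fin n}
    (hc : w c ≠ 0) : w - Finsupp.single c 1 ∈ Bs n d k i := by
  rw [mem_Bs] at hw ⊢
  refine ⟨?_, lt_of_le_of_lt (fl_mono d tsub_le_self) hw.2⟩
  have := degree_sub_single hc
  omega

/-- Non-injectivity by counting types, if the action of the linear form is compatible with the
types. -/
lemma not_inj_of_types [CharZero K] {α : Type*} (τ : (Fin n →₀ ℕ) → α) {d k i : ℕ} (hd : 1 ≤ d)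
    (hcompat : ∀ w ∈ Bs n d k (i + 1), ∀ w' ∈ Bs n d k (i + 1), τ w = τ w' →
      ∀ Φ : α → K, ∑ c, (w c : K) * Φ (τ (w - Finsupp.single c 1)) =
        ∑ c, (w' c : K) * Φ (τ (w' - Finsupp.single c 1)))
    (hcard : (Th τ d k (i + 1)).card < (Th τ d k i).card) : ¬ InjAt K n d k i 1 := by
  classical
  intro hinj
  have hrep : ∀ θ : ↥(Th τ d k (i + 1)), ∃ m ∈ Bs n d k (i + 1), τ m = θ :=
    fun θ => mem_Th.1 θ.2
  choose rep hrep1 hrep2 using hrep
  let ext : (↥(Th τ d k i) → K) → α → K := fun Φ θ =>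
    if h : θ ∈ Th τ d k i then Φ ⟨θ, h⟩ else 0
  have ext_add : ∀ Φ Φ' θ, ext (Φ + Φ') θ = ext Φ θ + ext Φ' θ := by
    intro Φ Φ' θ
    simp only [ext]
    split_ifs
    · rfl
    · rw [add_zero]
  have ext_smul : ∀ (r : K) Φ θ, ext (r • Φ) θ = r * ext Φ θ := by
    intro r Φ θ
    simp only [ext]
    split_ifs
    · rfl
    · rw [mul_zero]
  let L : (↥(Th τ d k i) → K) →ₗ[K] (↥(Th τ d k (i + 1)) → K) :=
    { toFun := fun Φ θ => ∑ c, (rep θ c : K) * ext Φ (τ (rep θ - Finsupp.single c 1))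
      map_add' := by
        intro Φ Φ'
        funext θ
        rw [Pi.add_apply, ← Finset.sum_add_distrib]
        exact Finset.sum_congr rfl fun c _ => by rw [ext_add, mul_add]
      map_smul' := by
        intro r Φ
        funext θ
        rw [Pi.smul_apply, smul_eq_mul, RingHom.id_apply, Finset.mul_sum]
        exact Finset.sum_congr rfl fun c _ => by rw [ext_smul]; ring }
  have hker : LinearMap.ker L ≠ ⊥ := by
    apply LinearMap.ker_ne_bot_of_finrank_lt
    rw [Module.finrank_fintype_fun_eq_card, Module.finrank_fintype_fun_eq_card, Fintype.card_coe,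
      Fintype.card_coe]
    exact hcard
  obtain ⟨Φ, hΦ, hΦ0⟩ := (Submodule.ne_bot_iff _).1 hker
  rw [LinearMap.mem_ker] at hΦ
  obtain ⟨θ₀, hθ₀⟩ : ∃ θ₀, Φ θ₀ ≠ 0 := by
    by_contra hcon
    push Not at hcon
    exact hΦ0 (funext hcon)
  obtain ⟨m₀, hm₀, hτ₀⟩ := mem_Th.1 θ₀.2
  set g : ↥(Bs n d k i) → K := fun m => ext Φ (τ m) / (fact (m : Fin n →₀ ℕ) : K) with hg
  have hfz : ∀ m : Fin n →₀ ℕ, (fact m : K) ≠ 0 := fun m => Nat.cast_ne_zero.2 (fact_ne_zero m)
  have h1 : el K n ^ 1 * toPoly K n d k i g ∈ powIdeal K n d k := by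
    rw [pow_one]
    apply mem_of_coeff hd (el_mul_hom (toPoly_hom g))
    intro w hw hfl
    have hwB : w ∈ Bs n d k (i + 1) := mem_Bs.2 ⟨hw, hfl⟩
    have hθ : τ w ∈ Th τ d k (i + 1) := mem_Th.2 ⟨w, hwB, rfl⟩
    have h2 : (fact w : K) * coeff w (el K n * toPoly K n d k i g) =
        ∑ c, (w c : K) * ext Φ (τ (w - Finsupp.single c 1)) := by
      rw [coeff_el_mul, Finset.mul_sum]
      refine Finset.sum_congr rfl fun c _ => ?_
      by_cases hc : w c = 0
      · rw [if_pos hc, hc, Nat.cast_zero, zero_mul, mul_zero]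
      · rw [if_neg hc, fact_sub w hc]
        have h3 := coeff_toPoly g ⟨_, sub_mem_Bs hwB hc⟩
        simp only at h3
        rw [h3, hg]
        simp only
        rw [Nat.cast_mul, mul_assoc, mul_div_cancel₀ _ (hfz _)]
    have h3 := hcompat w hwB (rep ⟨τ w, hθ⟩) (hrep1 _)
      (hrep2 ⟨τ w, hθ⟩).symm (ext Φ)
    have h4 := congrFun hΦ ⟨τ w, hθ⟩
    have h5 : L Φ ⟨τ w, hθ⟩ = ∑ c, (rep ⟨τ w, hθ⟩ c : K) *
        ext Φ (τ (rep ⟨τ w, hθ⟩ - Finsupp.single c 1)) := rfl
    rw [h5, Pi.zero_apply] at h4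
    rw [h3, h4] at h2
    exact (mul_eq_zero.1 h2).resolve_left (hfz w)
  have h2 := hinj _ (toPoly_hom g) h1
  rw [mem_powIdeal hd] at h2
  have h3 := h2 m₀ (mem_Bs.1 hm₀).2
  have h4 := coeff_toPoly g ⟨m₀, hm₀⟩
  simp only at h4
  rw [h4, hg] at h3
  simp only at h3
  have h5 : ext Φ (τ m₀) = Φ θ₀ := by
    simp only [ext]
    have h6 : τ m₀ ∈ Th τ d k i := mem_Th.2 ⟨m₀, hm₀, rfl⟩
    rw [dif_pos h6]
    congr 1
    exact Subtype.ext hτ₀
  rw [h5, div_eq_zero_iff] at h3
  rcases h3 with h3 | h3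
  · exact hθ₀ h3
  · exact hfz _ h3

/-- Non-injectivity is inherited by the next power. -/
lemma not_inj_succ (hn : 1 ≤ n) {d k i : ℕ} (hd : 1 ≤ d) (h : ¬ InjAt K n d k i 1) :
    ¬ InjAt K n d (k + 1) (i + d) 1 := by
  intro hinj
  apply h
  intro f hf hJ
  set c : Fin n := ⟨0, by omega⟩
  have hcoef : ∀ (g : MvPolynomial (Fin n) K), X c ^ d * g ∈ powIdeal K n d (k + 1) ↔
      g ∈ powIdeal K n d k := by
    intro g
    rw [mem_powIdeal hd, mem_powIdeal hd]
    have hfl : ∀ m : Fin n →₀ ℕ, fl d (Finsupp.single c d + m) = 1 + fl d m := by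
      intro m
      unfold fl
      rw [← Finset.add_sum_erase _ _ (Finset.mem_univ c),
        ← Finset.add_sum_erase _ (fun j => m j / d) (Finset.mem_univ c), Finsupp.add_apply,
        Finsupp.single_eq_same, Nat.add_div_left _ (by omega)]
      have : ∀ j ∈ Finset.univ.erase c, (Finsupp.single c d + m : Fin n →₀ ℕ) j / d = m j / d := by
        intro j hj
        rw [Finsupp.add_apply, Finsupp.single_apply, if_neg (Ne.symm (Finset.ne_of_mem_erase hj)),
          zero_add]
      rw [Finset.sum_congr rfl this]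
      omega
    constructor
    · intro hg m hm
      have h1 := hg (Finsupp.single c d + m) (by rw [hfl]; omega)
      rw [X_pow_eq_monomial, coeff_monomial_mul, one_mul] at h1
      exact h1
    · intro hg m hm
      rw [X_pow_eq_monomial, coeff_monomial_mul']
      split_ifs with hle
      · rw [one_mul]
        apply hg
        have h1 : Finsupp.single c d + (m - Finsupp.single c d) = m := add_tsub_cancel_of_le hle
        have h2 := hfl (m - Finsupp.single c d)
        rw [h1] at h2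
        omega
      · rfl
  have h1 : (X c ^ d * f).IsHomogeneous (i + d) := by
    have := ((isHomogeneous_X K c).pow d).mul hf
    rwa [one_mul, add_comm] at this
  rw [← hcoef]
  apply hinj _ h1
  rw [← hcoef] at hJ
  rwa [mul_left_comm] at hJ

end Pool.Agent.W5h40.Wlp
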